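import Pool.Agent.Helper26.PP.Full
import Pool.Agent.Helper87.PP.Count

/-!
# A positive proportion of the integral maps: the count and the final theorem
-/

set_option autoImplicit false

namespace Pool.Agent.Helper26.PP

open MvPolynomial
open Pool.Agent.Helper86.MQ (pm)
open Pool.Agent.Helper26.DV (VIdx vP coeff_vP vP_coeff coeff_vP_of_gt)
open Pool.Agent.Helper87.DV (vP_injective)
open Pool.Agent.Helper87.PP (zbox zbox_eq count_Icc)

/-- **The count.** -/
theorem coneF_count (m d : ℕ) (hd : 1 ≤ d) : ∃ c : ℝ, 0 < c ∧ ∃ B₀ : ℕ, ∀ B : ℕ, B₀ ≤ B →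
    (zbox m d B).Finite ∧ c * ((zbox m d B).ncard : ℝ) ≤
      (({Φ ∈ zbox m d B | ∃ lam : ℝ, lam0 m d ≤ lam ∧ ConeF m d lam
        fun i => map (Int.castRingHom ℝ) (Φ i)}).ncard : ℝ) := by
  classical
  set e : ℝ := min (eps m d) 1 with he
  have he0 : 0 < e := lt_min (eps_pos hd) one_pos
  have he1 : e ≤ 1 := min_le_right _ _
  have hee : e ≤ eps m d := min_le_left _ _
  set n := Fintype.card (VIdx m fun _ => d) with hn
  refine ⟨(e / 6) ^ n, by positivity, max ⌈2 / e⌉₊ (max 1 ⌈2 * lam0 m d⌉₊), fun B hB => ?_⟩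
  have hB1 : 2 / e ≤ B := (Nat.le_ceil _).trans (by exact_mod_cast (le_max_left _ _).trans hB)
  have hBpos : (1 : ℝ) ≤ B := by
    exact_mod_cast ((le_max_left _ _).trans (le_max_right _ _)).trans hB
  have hBl : 2 * lam0 m d ≤ B := (Nat.le_ceil _).trans
    (by exact_mod_cast ((le_max_right _ _).trans (le_max_right _ _)).trans hB)
  set L : ℝ := B / 2 with hL
  have hLpos : 0 < L := by rw [hL]; linarith
  have hLl : lam0 m d ≤ L := by rw [hL]; linarith
  set I : VIdx m (fun _ => d) → Finset ℤ := fun k =>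
    (Finset.Icc (-(B : ℤ)) B).filter fun z : ℤ =>
      |(z : ℝ) - L * refF m d k.1 k.2| ≤ e * L with hI
  have hcardIcc : ((Finset.Icc (-(B : ℤ)) B).card : ℝ) = 2 * B + 1 := by
    rw [Int.card_Icc]
    have h1 : ((B : ℤ) + 1 - -(B : ℤ)).toNat = 2 * B + 1 := by omega
    rw [h1]
    push_cast
    ring
  have hIcard : ∀ k, e / 6 * (2 * B + 1) ≤ ((I k).card : ℝ) := by
    intro k
    simp only [hI]
    refine count_Icc hL (mul_nonneg hLpos.le (refF_nonneg _ _)) ?_ he0 he1 hB1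
    calc L * refF m d k.1 k.2 ≤ L * 1 := by
          gcongr
          exact refF_le_one hd _ _
      _ = L := mul_one L
  have hIsub : ∀ k, I k ⊆ Finset.Icc (-(B : ℤ)) B := fun k => Finset.filter_subset _ _
  have hinj := vP_injective (m := m) (R := ℤ) (fun _ => d)
  have hset : {c : VIdx m (fun _ => d) → ℤ | ∀ k, c k ∈ Finset.Icc (-(B : ℤ)) B} =
      (Fintype.piFinset fun _ : VIdx m (fun _ => d) => Finset.Icc (-(B : ℤ)) B : Set _) := by
    ext c
    simp only [Set.mem_ofPred_eq, Finset.mem_coe, Fintype.mem_piFinset]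
  have hfin : (zbox m d B).Finite := by
    rw [zbox_eq, hset]
    exact (Finset.finite_toSet _).image _
  have hcard : ((zbox m d B).ncard : ℝ) = (2 * B + 1) ^ n := by
    rw [zbox_eq, Set.ncard_image_of_injective _ hinj, hset, Set.ncard_coe_finset,
      Fintype.card_piFinset, Finset.prod_const, Finset.card_univ]
    push_cast
    rw [hcardIcc]
  refine ⟨hfin, ?_⟩
  set T : Finset (VIdx m (fun _ => d) → ℤ) := Fintype.piFinset I with hT
  have hTcard : (e / 6) ^ n * ((zbox m d B).ncard : ℝ) ≤ (T.card : ℝ) := by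
    rw [hcard, ← mul_pow, hT, Fintype.card_piFinset]
    push_cast
    calc (e / 6 * (2 * (B : ℝ) + 1)) ^ n = ∏ _k : VIdx m (fun _ => d), (e / 6 * (2 * B + 1)) := by
          rw [Finset.prod_const, Finset.card_univ]
      _ ≤ ∏ k, ((I k).card : ℝ) := Finset.prod_le_prod (fun k _ => by positivity)
          fun k _ => hIcard k
  refine hTcard.trans ?_
  have h1 : (T.card : ℝ) = (((fun c : VIdx m (fun _ => d) → ℤ => vP c) ''
      (T : Set (VIdx m (fun _ => d) → ℤ))).ncard : ℝ) := by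
    rw [Set.ncard_image_of_injective _ hinj, Set.ncard_coe_finset]
  rw [h1]
  refine Nat.cast_le.2 (Set.ncard_le_ncard ?_ (hfin.subset fun Φ hΦ => hΦ.1))
  rintro Φ ⟨c, hc, rfl⟩
  have hc1 : ∀ k, c k ∈ I k := by
    rw [Finset.mem_coe, hT, Fintype.mem_piFinset] at hc
    exact hc
  refine ⟨?_, L, hLl, ?_⟩
  · rw [zbox_eq]
    exact ⟨c, fun k => hIsub k (hc1 k), rfl⟩
  · intro i s hs
    have h2 := hc1 ⟨i, ⟨s, hs⟩⟩
    simp only [hI] at h2
    rw [Finset.mem_filter] at h2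
    have h3 := coeff_vP (w := fun _ => d) c i ⟨s, hs⟩
    dsimp only at h3 ⊢
    rw [coeff_map, h3]
    refine h2.2.trans ?_
    gcongr

/-- **Main theorem.** For even `d` a positive proportion of all integral maps of degree at most `d`
satisfies: for all points over fields with a real embedding and all subvarieties the return set is
finite or cofinite. -/
theorem ppf_main (m : ℕ) {d : ℕ} (hd : 2 ≤ d) (he : Even d) :
    ∃ c : ℝ, 0 < c ∧ ∃ B₀ : ℕ, ∀ B : ℕ, B₀ ≤ B → (zbox m d B).Finite ∧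
      c * ((zbox m d B).ncard : ℝ) ≤
        (({Φ ∈ zbox m d B | ∀ (α : Fin (m + 1) → ℂ) (K : Subfield ℂ), (∀ i, α i ∈ K) →
          Nonempty (K →+* ℝ) → ∀ V : Set (MvPolynomial (Fin (m + 1)) ℂ),
            {n : ℕ | ∀ G ∈ V,
              eval ((pm (fun i => map (Int.castRingHom ℂ) (Φ i)))^[n] α) G = 0}.Finite ∨
            ∃ n₁ : ℕ, ∀ n ≥ n₁, ∀ G ∈ V,
              eval ((pm (fun i => map (Int.castRingHom ℂ) (Φ i)))^[n] α) G = 0}.ncard : ℕ) :
                ℝ) := by
  obtain ⟨c, hc, B₀, hB⟩ := coneF_count m d (by omega)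
  refine ⟨c, hc, B₀, fun B hBB => ⟨(hB B hBB).1, (hB B hBB).2.trans (Nat.cast_le.2
    (Set.ncard_le_ncard ?_ ((hB B hBB).1.subset fun Φ hΦ => hΦ.1)))⟩⟩
  rintro Φ ⟨hΦ, lam, hlam, hC⟩
  exact ⟨hΦ, fun α K hK ⟨σ⟩ V => full_aps hd he Φ (fun i => (hΦ i).1) hlam hC α K hK σ V⟩

end Pool.Agent.Helper26.PP
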