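import Mathlib

/-!
# Bounds for polynomials with bounded coefficients
-/

set_option autoImplicit false

namespace Pool.Agent.Helper26.PP

open Finset MvPolynomial

variable {m d : ℕ}

/-- the exponents of degree at most `d` -/
noncomputable def expo (m d : ℕ) : Finset (Fin (m + 1) →₀ ℕ) :=
  (Finsupp.finite_of_degree_le (σ := Fin (m + 1)) d).toFinset

theorem mem_expo {s : Fin (m + 1) →₀ ℕ} : s ∈ expo m d ↔ s.degree ≤ d := by
  rw [expo, Set.Finite.mem_toFinset]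
  rfl

/-- the number of the exponents -/
noncomputable def Mn (m d : ℕ) : ℝ := ((expo m d).card : ℝ)

theorem Mn_nonneg : 0 ≤ Mn m d := Nat.cast_nonneg _

theorem one_le_Mn : 1 ≤ Mn m d := by
  rw [Mn]
  have h : (0 : Fin (m + 1) →₀ ℕ) ∈ expo m d := by
    rw [mem_expo]
    simp
  exact_mod_cast Finset.card_pos.2 ⟨_, h⟩

theorem eval_eq_expo {P : MvPolynomial (Fin (m + 1)) ℝ} (hP : P.totalDegree ≤ d)
    (x : Fin (m + 1) → ℝ) : eval x P = ∑ s ∈ expo m d, coeff s P * ∏ i, x i ^ s i := by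
  rw [eval_eq']
  refine Finset.sum_subset (fun s hs => ?_) fun s _ hs => ?_
  · rw [mem_expo]
    exact (le_totalDegree hs).trans hP
  · rw [notMem_support_iff.1 hs, zero_mul]

theorem prod_pow_le {s : Fin (m + 1) →₀ ℕ} {x : Fin (m + 1) → ℝ} {T : ℝ}
    (hx : ∀ i, |x i| ≤ T) : |∏ i, x i ^ s i| ≤ T ^ s.degree := by
  rw [Finset.abs_prod, Finsupp.degree_eq_sum, ← Finset.prod_pow_eq_pow_sum]
  refine Finset.prod_le_prod (fun i _ => abs_nonneg _) fun i _ => ?_
  rw [abs_pow]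
  exact pow_le_pow_left₀ (abs_nonneg _) (hx i) _

theorem eval_le {P : MvPolynomial (Fin (m + 1)) ℝ} (hP : P.totalDegree ≤ d) {b : ℝ}
    (hb : ∀ s, |coeff s P| ≤ b) {x : Fin (m + 1) → ℝ} {T : ℝ} (hT : 1 ≤ T)
    (hx : ∀ i, |x i| ≤ T) : |eval x P| ≤ b * Mn m d * T ^ d := by
  have hb0 : 0 ≤ b := (abs_nonneg _).trans (hb 0)
  rw [eval_eq_expo hP]
  refine (abs_sum_le_sum_abs _ _).trans ?_
  have h : ∀ s ∈ expo m d, |coeff s P * ∏ i, x i ^ s i| ≤ b * T ^ d := by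
    intro s hs
    rw [abs_mul]
    exact mul_le_mul (hb s) ((prod_pow_le hx).trans (pow_le_pow_right₀ hT (mem_expo.1 hs)))
      (abs_nonneg _) hb0
  refine (sum_le_sum h).trans (le_of_eq ?_)
  rw [sum_const, nsmul_eq_mul, Mn]
  ring

theorem hom_le {P : MvPolynomial (Fin (m + 1)) ℝ} (hP : P.IsHomogeneous d) {b : ℝ}
    (hb : ∀ s, |coeff s P| ≤ b) {x : Fin (m + 1) → ℝ} {T : ℝ}
    (hx : ∀ i, |x i| ≤ T) : |eval x P| ≤ b * Mn m d * T ^ d := by
  have hb0 : 0 ≤ b := (abs_nonneg _).trans (hb 0)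
  have hT : 0 ≤ T := (abs_nonneg _).trans (hx 0)
  rw [eval_eq_expo hP.totalDegree_le]
  refine (abs_sum_le_sum_abs _ _).trans ?_
  have h : ∀ s ∈ expo m d, |coeff s P * ∏ i, x i ^ s i| ≤ b * T ^ d := by
    intro s hs
    by_cases h0 : coeff s P = 0
    · rw [h0, zero_mul, abs_zero]
      exact mul_nonneg hb0 (pow_nonneg hT _)
    · rw [abs_mul]
      have h1 : s.degree = d := by
        have := hP h0
        rwa [show (Finsupp.weight 1) s = s.degree from (DFunLike.congr_fun (Finsupp.degree_eq_weight_one (R := ℕ)) s).symm] at this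
      have h2 := prod_pow_le (s := s) hx
      rw [h1] at h2
      exact mul_le_mul (hb s) h2 (abs_nonneg _) hb0
  refine (sum_le_sum h).trans (le_of_eq ?_)
  rw [sum_const, nsmul_eq_mul, Mn]
  ring

theorem pow_sub_le {a b : ℝ} (ha : |a| ≤ 1) (hb : |b| ≤ 1) (n : ℕ) :
    |a ^ n - b ^ n| ≤ n * |a - b| := by
  induction n with
  | zero => simp
  | succ n ih =>
    have h1 : a ^ (n + 1) - b ^ (n + 1) = a * (a ^ n - b ^ n) + (a - b) * b ^ n := by ring
    rw [h1]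
    refine (abs_add_le _ _).trans ?_
    rw [abs_mul, abs_mul, abs_pow]
    have h2 : |a| * |a ^ n - b ^ n| ≤ n * |a - b| :=
      (mul_le_of_le_one_left (abs_nonneg _) ha).trans ih
    have h3 : |a - b| * |b| ^ n ≤ |a - b| :=
      mul_le_of_le_one_right (abs_nonneg _) (pow_le_one₀ (abs_nonneg _) hb)
    push_cast
    linarith

theorem prod_sub_le {ι : Type*} (t : Finset ι) (a b : ι → ℝ) (ha : ∀ i, |a i| ≤ 1)
    (hb : ∀ i, |b i| ≤ 1) : |∏ i ∈ t, a i - ∏ i ∈ t, b i| ≤ ∑ i ∈ t, |a i - b i| := by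
  classical
  induction t using Finset.induction_on with
  | empty => simp
  | insert i t hi ih =>
    rw [prod_insert hi, prod_insert hi, sum_insert hi]
    have h1 : a i * ∏ i ∈ t, a i - b i * ∏ i ∈ t, b i =
        a i * (∏ i ∈ t, a i - ∏ i ∈ t, b i) + (a i - b i) * ∏ i ∈ t, b i := by ring
    rw [h1]
    refine (abs_add_le _ _).trans ?_
    rw [abs_mul, abs_mul]
    have h2 : |a i| * |∏ i ∈ t, a i - ∏ i ∈ t, b i| ≤ ∑ i ∈ t, |a i - b i| :=
      (mul_le_of_le_one_left (abs_nonneg _) (ha i)).trans ih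
    have h3 : |a i - b i| * |∏ i ∈ t, b i| ≤ |a i - b i| := by
      refine mul_le_of_le_one_right (abs_nonneg _) ?_
      rw [Finset.abs_prod]
      exact Finset.prod_le_one (fun i _ => abs_nonneg _) fun i _ => hb i
    linarith

theorem mono_sub_le {s : Fin (m + 1) →₀ ℕ} {x y : Fin (m + 1) → ℝ} {δ : ℝ}
    (hx : ∀ i, |x i| ≤ 1) (hy : ∀ i, |y i| ≤ 1) (h : ∀ i, |x i - y i| ≤ δ) :
    |∏ i, x i ^ s i - ∏ i, y i ^ s i| ≤ s.degree * δ := by
  refine (prod_sub_le _ _ _ (fun i => ?_) fun i => ?_).trans ?_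
  · rw [abs_pow]
    exact pow_le_one₀ (abs_nonneg _) (hx i)
  · rw [abs_pow]
    exact pow_le_one₀ (abs_nonneg _) (hy i)
  · rw [Finsupp.degree_eq_sum]
    push_cast
    rw [sum_mul]
    refine sum_le_sum fun i _ => ?_
    exact (pow_sub_le (hx i) (hy i) _).trans (mul_le_mul_of_nonneg_left (h i) (Nat.cast_nonneg _))

theorem eval_sub_le {P : MvPolynomial (Fin (m + 1)) ℝ} (hP : P.totalDegree ≤ d) {b : ℝ}
    (hb : ∀ s, |coeff s P| ≤ b) {x y : Fin (m + 1) → ℝ} {δ : ℝ}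
    (hx : ∀ i, |x i| ≤ 1) (hy : ∀ i, |y i| ≤ 1) (h : ∀ i, |x i - y i| ≤ δ) :
    |eval x P - eval y P| ≤ b * Mn m d * (d * δ) := by
  have hb0 : 0 ≤ b := (abs_nonneg _).trans (hb 0)
  have hδ : 0 ≤ δ := (abs_nonneg _).trans (h 0)
  rw [eval_eq_expo hP, eval_eq_expo hP, ← sum_sub_distrib]
  refine (abs_sum_le_sum_abs _ _).trans ?_
  have h1 : ∀ s ∈ expo m d, |coeff s P * ∏ i, x i ^ s i - coeff s P * ∏ i, y i ^ s i| ≤
      b * (d * δ) := by
    intro s hs
    rw [← mul_sub, abs_mul]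
    refine mul_le_mul (hb s) ((mono_sub_le hx hy h).trans ?_) (abs_nonneg _) hb0
    exact mul_le_mul_of_nonneg_right (by exact_mod_cast mem_expo.1 hs) hδ
  refine (sum_le_sum h1).trans (le_of_eq ?_)
  rw [sum_const, nsmul_eq_mul, Mn]
  ring

theorem pderiv_le {P : MvPolynomial (Fin (m + 1)) ℝ} (hP : P.totalDegree ≤ d) {b : ℝ}
    (hb : ∀ s, |coeff s P| ≤ b) {x : Fin (m + 1) → ℝ} (hx : ∀ i, |x i| ≤ 1) (j : Fin (m + 1)) :
    |eval x (pderiv j P)| ≤ b * Mn m d * d := by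
  have hb0 : 0 ≤ b := (abs_nonneg _).trans (hb 0)
  have h0 : eval x (pderiv j P) = ∑ s ∈ expo m d,
      coeff s P * s j * ∏ i, x i ^ ((s - Finsupp.single j 1 : Fin (m + 1) →₀ ℕ)) i := by
    conv_lhs => rw [P.as_sum, map_sum, map_sum]
    have h1 : ∀ s ∈ P.support, eval x (pderiv j (monomial s (coeff s P))) =
        coeff s P * s j * ∏ i, x i ^ ((s - Finsupp.single j 1 : Fin (m + 1) →₀ ℕ)) i := by
      intro s _
      rw [pderiv_monomial, eval_monomial, Finsupp.prod_fintype _ _ (fun i => pow_zero _)]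
    rw [sum_congr rfl h1]
    refine Finset.sum_subset (fun s hs => ?_) fun s _ hs => ?_
    · rw [mem_expo]
      exact (le_totalDegree hs).trans hP
    · rw [notMem_support_iff.1 hs, zero_mul, zero_mul]
  rw [h0]
  refine (abs_sum_le_sum_abs _ _).trans ?_
  have h1 : ∀ s ∈ expo m d, |coeff s P * s j * ∏ i, x i ^ ((s - Finsupp.single j 1 : Fin (m + 1) →₀ ℕ)) i| ≤ b * d := by
    intro s hs
    rw [abs_mul, abs_mul]
    have h2 : |∏ i, x i ^ ((s - Finsupp.single j 1 : Fin (m + 1) →₀ ℕ)) i| ≤ 1 := by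
      have := prod_pow_le (s := (s - Finsupp.single j 1 : Fin (m + 1) →₀ ℕ)) hx
      rwa [one_pow] at this
    have h3 : |(s j : ℝ)| ≤ d := by
      rw [abs_of_nonneg (Nat.cast_nonneg _)]
      exact_mod_cast (Finsupp.le_degree j s).trans (mem_expo.1 hs)
    have h4 : |coeff s P| * |(s j : ℝ)| ≤ b * d := mul_le_mul (hb s) h3 (abs_nonneg _) hb0
    exact (mul_le_of_le_one_right (mul_nonneg (abs_nonneg _) (abs_nonneg _)) h2).trans h4
  refine (sum_le_sum h1).trans (le_of_eq ?_)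
  rw [sum_const, nsmul_eq_mul, Mn]
  ring

end Pool.Agent.Helper26.PP
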