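import Pool.Agent.Helper86.MQ.Defs

/-!
# Descent to subfields and change of the coefficients
-/

set_option autoImplicit false

namespace Pool.Agent.Helper26.PP

open Finset MvPolynomial
open Pool.Agent.Helper86.MQ (pm)

variable {m : ℕ}

/-- Complex polynomials can be replaced by polynomials over a subfield, as far as points over this
subfield are concerned. -/
theorem exists_descent {K : Type*} [Field K] [Algebra K ℂ] (V : Set (MvPolynomial (Fin (m + 1)) ℂ)) :
    ∃ W : Set (MvPolynomial (Fin (m + 1)) K), ∀ y : Fin (m + 1) → K,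
      (∀ G ∈ V, eval (fun i => algebraMap K ℂ (y i)) G = 0) ↔ ∀ H ∈ W, eval y H = 0 := by
  classical
  let b := Module.Basis.ofVectorSpace K ℂ
  have key : ∀ (y : Fin (m + 1) → K) (G : MvPolynomial (Fin (m + 1)) ℂ) (j),
      eval y (∑ s ∈ G.support, monomial s (b.repr (coeff s G) j)) =
        b.repr (eval (fun i => algebraMap K ℂ (y i)) G) j := by
    intro y G j
    rw [map_sum, eval_eq, map_sum, Finsupp.coe_finsetSum, Finset.sum_apply]
    refine sum_congr rfl fun s _ => ?_
    have h1 : coeff s G * ∏ i ∈ s.support, (algebraMap K ℂ (y i)) ^ s i =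
        (∏ i ∈ s.support, y i ^ s i) • coeff s G := by
      rw [Algebra.smul_def, map_prod, mul_comm]
      congr 1
      exact prod_congr rfl fun i _ => (map_pow _ _ _).symm
    rw [eval_monomial, h1, map_smul, Finsupp.smul_apply, smul_eq_mul, mul_comm]
    rfl
  refine ⟨{H | ∃ G ∈ V, ∃ j, H = ∑ s ∈ G.support, monomial s (b.repr (coeff s G) j)},
    fun y => ⟨?_, fun h G hG => ?_⟩⟩
  · rintro h H ⟨G, hG, j, rfl⟩
    rw [key, h G hG, map_zero]
    rfl
  · have h1 : b.repr (eval (fun i => algebraMap K ℂ (y i)) G) = 0 := by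
      ext j
      rw [← key]
      exact h _ ⟨G, hG, j, rfl⟩
    exact b.repr.map_eq_zero_iff.1 h1

theorem iter_hom {R S : Type*} [CommRing R] [CommRing S] (f : R →+* S)
    (Φ : Fin (m + 1) → MvPolynomial (Fin (m + 1)) R) (a : Fin (m + 1) → R) (n : ℕ) :
    (pm (fun i => map f (Φ i)))^[n] (fun i => f (a i)) = fun i => f ((pm Φ)^[n] a i) := by
  induction n with
  | zero => rfl
  | succ n ih =>
    rw [Function.iterate_succ_apply', Function.iterate_succ_apply', ih]
    funext i
    rw [pm, pm, eval_map]
    exact (eval₂_comp_left f (RingHom.id R) ((pm Φ)^[n] a) (Φ i)).symm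

end Pool.Agent.Helper26.PP
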