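import Mathlib

/-!
# Real matrices close to a diagonal matrix with distinct entries have real eigenvalues
-/

set_option autoImplicit false

namespace Pool.Agent.Helper26.PP

open Finset

variable {ι : Type*} [Fintype ι] [DecidableEq ι]

theorem im_zero_of_close (Q : ι → ι → ℝ) (κ : ι → ℝ) (τ γ : ℝ) (hτ : 0 ≤ τ)
    (hQ : ∀ i j, |Q i j - (if i = j then κ i else 0)| ≤ τ)
    (hκ : ∀ i j, i ≠ j → γ ≤ |κ i - κ j|) (hγ : 4 * (Fintype.card ι : ℝ) * τ < γ)
    (h : ι → ℂ) (h0 : h ≠ 0) (z : ℂ) (hz : ∀ i, ∑ j, (Q i j : ℂ) * h j = z * h i) :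
    z.im = 0 := by
  obtain ⟨i₀, hi₀⟩ : ∃ i, h i ≠ 0 := Function.ne_iff.1 h0
  have : Nonempty ι := ⟨i₀⟩
  obtain ⟨i, hi⟩ := Finite.exists_max (fun j => ‖h j‖)
  have hin : h i ≠ 0 := by
    intro h1
    have h2 := hi i₀
    rw [h1, norm_zero] at h2
    exact hi₀ (norm_le_zero_iff.1 h2)
  set g : ι → ℂ := fun j => h j / h i with hg
  have hgi : g i = 1 := div_self hin
  have hg1 : ∀ j, ‖g j‖ ≤ 1 := by
    intro j
    rw [hg]
    simp only [norm_div]
    exact (div_le_one (norm_pos_iff.2 hin)).2 (hi j)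
  have hgz : ∀ j, ∑ k, (Q j k : ℂ) * g k = z * g j := by
    intro j
    have h1 := hz j
    simp only [hg]
    rw [mul_div_assoc', ← h1, sum_div]
    exact sum_congr rfl fun k _ => by ring
  set r : ι → ℝ := fun j => (g j).re with hr
  set s : ι → ℝ := fun j => (g j).im with hs
  have hre : ∀ j, ∑ k, Q j k * r k = z.re * r j - z.im * s j := by
    intro j
    have h1 := congrArg Complex.re (hgz j)
    rw [Complex.re_sum, Complex.mul_re] at h1
    rw [← h1]
    exact sum_congr rfl fun k _ => by rw [Complex.re_ofReal_mul]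
  have him : ∀ j, ∑ k, Q j k * s k = z.re * s j + z.im * r j := by
    intro j
    have h1 := congrArg Complex.im (hgz j)
    rw [Complex.im_sum, Complex.mul_im] at h1
    rw [← h1]
    exact sum_congr rfl fun k _ => by rw [Complex.im_ofReal_mul]
  have hr1 : ∀ j, |r j| ≤ 1 := fun j => (Complex.abs_re_le_norm _).trans (hg1 j)
  have hri : r i = 1 := by simp only [hr, hgi, Complex.one_re]
  have hsi : s i = 0 := by simp only [hs, hgi, Complex.one_im]
  -- a row applied to a vector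
  set n : ℝ := (Fintype.card ι : ℝ) with hn
  have hrow : ∀ (j : ι) (x : ι → ℝ) (S : ℝ), (∀ k, |x k| ≤ S) →
      |∑ k, Q j k * x k - κ j * x j| ≤ n * τ * S := by
    intro j x S hx
    have h1 : ∑ k, Q j k * x k - κ j * x j =
        ∑ k, (Q j k - (if j = k then κ j else 0)) * x k := by
      simp only [sub_mul, sum_sub_distrib, ite_mul, zero_mul]
      rw [Finset.sum_ite_eq]
      simp
    rw [h1]
    refine (abs_sum_le_sum_abs _ _).trans ?_
    have h2 : ∀ k ∈ (univ : Finset ι),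
        |(Q j k - (if j = k then κ j else 0)) * x k| ≤ τ * S := by
      intro k _
      rw [abs_mul]
      exact mul_le_mul (hQ j k) (hx k) (abs_nonneg _) hτ
    refine (sum_le_sum h2).trans (le_of_eq ?_)
    rw [sum_const, card_univ, nsmul_eq_mul]
    ring
  obtain ⟨l, hl⟩ := Finite.exists_max (fun j => |s j|)
  have hS : ∀ k, |s k| ≤ |s l| := hl
  have hb : |z.im| ≤ n * τ * |s l| := by
    have h1 := hrow i s _ hS
    rw [him i, hsi, hri] at h1
    simpa using h1
  by_contra hne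
  have hsl : 0 < |s l| := by
    rcases (abs_nonneg (s l)).lt_or_eq with h1 | h1
    · exact h1
    · rw [← h1, mul_zero] at hb
      exact absurd (abs_nonpos_iff.1 hb) hne
  have hli : l ≠ i := by
    rintro rfl
    rw [hsi, abs_zero] at hsl
    exact lt_irrefl _ hsl
  have ha : |z.re - κ i| ≤ n * τ := by
    have h1 := hrow i r 1 hr1
    rw [hre i, hsi, hri] at h1
    simpa using h1
  have hl2 : |κ l - z.re| * |s l| ≤ n * τ * |s l| + |z.im| := by
    have h1 := hrow l s _ hS
    rw [him l] at h1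
    have h2 : (κ l - z.re) * s l = z.im * r l - (z.re * s l + z.im * r l - κ l * s l) := by ring
    rw [← abs_mul, h2]
    refine (abs_sub _ _).trans ?_
    have h3 : |z.im * r l| ≤ |z.im| := by
      rw [abs_mul]
      exact mul_le_of_le_one_right (abs_nonneg _) (hr1 l)
    linarith
  have h3 := hκ l i hli
  have h4 : γ ≤ |κ l - z.re| + n * τ := by
    refine h3.trans ?_
    have h5 : κ l - κ i = (κ l - z.re) + (z.re - κ i) := by ring
    rw [h5]
    exact (abs_add_le _ _).trans (by linarith)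
  have h5 : (γ - n * τ) * |s l| ≤ 2 * (n * τ) * |s l| := by
    have h6 : (γ - n * τ) * |s l| ≤ |κ l - z.re| * |s l| :=
      mul_le_mul_of_nonneg_right (by linarith) hsl.le
    nlinarith
  have h6 : γ - n * τ ≤ 2 * (n * τ) := le_of_mul_le_mul_right h5 hsl
  have h7 : 0 ≤ n * τ := mul_nonneg (Nat.cast_nonneg _) hτ
  linarith

/-- The real parts of the eigenvalues are close to the diagonal entries. -/
theorem re_pos_of_close (Q : ι → ι → ℝ) (κ : ι → ℝ) (τ : ℝ) (hτ : 0 ≤ τ)
    (hQ : ∀ i j, |Q i j - (if i = j then κ i else 0)| ≤ τ)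
    (hκ : ∀ i, (Fintype.card ι : ℝ) * τ < κ i)
    (h : ι → ℂ) (h0 : h ≠ 0) (z : ℂ) (hz : ∀ i, ∑ j, (Q i j : ℂ) * h j = z * h i) :
    0 < z.re := by
  obtain ⟨i₀, hi₀⟩ : ∃ i, h i ≠ 0 := Function.ne_iff.1 h0
  have : Nonempty ι := ⟨i₀⟩
  obtain ⟨i, hi⟩ := Finite.exists_max (fun j => ‖h j‖)
  have hin : h i ≠ 0 := by
    intro h1
    have h2 := hi i₀
    rw [h1, norm_zero] at h2
    exact hi₀ (norm_le_zero_iff.1 h2)
  set r : ι → ℝ := fun j => (h j / h i).re with hr
  have hr1 : ∀ j, |r j| ≤ 1 := by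
    intro j
    refine (Complex.abs_re_le_norm _).trans ?_
    rw [norm_div]
    exact (div_le_one (norm_pos_iff.2 hin)).2 (hi j)
  have hri : r i = 1 := by
    simp only [hr]
    rw [div_self hin, Complex.one_re]
  have hsum : ∑ k, Q i k * r k = z.re := by
    have h1 : ∑ k, (Q i k : ℂ) * (h k / h i) = z := by
      have h2 : (∑ k, (Q i k : ℂ) * h k) / h i = z := by
        rw [hz i, mul_div_cancel_right₀ _ hin]
      rw [← h2, sum_div]
      exact sum_congr rfl fun k _ => by ring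
    have h3 := congrArg Complex.re h1
    rw [Complex.re_sum] at h3
    rw [← h3]
    exact sum_congr rfl fun k _ => by rw [Complex.re_ofReal_mul]
  have h1 : ∑ k, Q i k * r k - κ i =
      ∑ k, (Q i k - (if i = k then κ i else 0)) * r k := by
    simp only [sub_mul, sum_sub_distrib, ite_mul, zero_mul]
    rw [Finset.sum_ite_eq]
    simp [hri]
  have h2 : |∑ k, Q i k * r k - κ i| ≤ (Fintype.card ι : ℝ) * τ := by
    rw [h1]
    refine (abs_sum_le_sum_abs _ _).trans ?_
    have h3 : ∀ k ∈ (univ : Finset ι),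
        |(Q i k - (if i = k then κ i else 0)) * r k| ≤ τ := by
      intro k _
      rw [abs_mul]
      exact (mul_le_of_le_one_right (abs_nonneg _) (hr1 k)).trans (hQ i k)
    refine (sum_le_sum h3).trans (le_of_eq ?_)
    rw [sum_const, card_univ, nsmul_eq_mul]
  rw [hsum] at h2
  have h3 := (abs_le.1 h2).1
  have h4 := hκ i
  linarith

/-- The matrix is invertible, even over the complex numbers. -/
theorem eq_zero_of_close (Q : ι → ι → ℝ) (κ : ι → ℝ) (τ : ℝ)
    (hQ : ∀ i j, |Q i j - (if i = j then κ i else 0)| ≤ τ)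
    (hκ : ∀ i, (Fintype.card ι : ℝ) * τ < |κ i|)
    (h : ι → ℂ) (hz : ∀ i, ∑ j, (Q i j : ℂ) * h j = 0) : h = 0 := by
  by_contra h0
  obtain ⟨i₀, hi₀⟩ : ∃ i, h i ≠ 0 := Function.ne_iff.1 h0
  have : Nonempty ι := ⟨i₀⟩
  obtain ⟨i, hi⟩ := Finite.exists_max (fun j => ‖h j‖)
  have hin : 0 < ‖h i‖ := (norm_pos_iff.2 hi₀).trans_le (hi i₀)
  have h1 : (κ i : ℂ) * h i = - ∑ k, ((Q i k - (if i = k then κ i else 0) : ℝ) : ℂ) * h k := by
    have h2 : ∑ k, ((Q i k - (if i = k then κ i else 0) : ℝ) : ℂ) * h k =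
        ∑ k, (Q i k : ℂ) * h k - ∑ k, ((if i = k then κ i else 0 : ℝ) : ℂ) * h k := by
      rw [← sum_sub_distrib]
      refine sum_congr rfl fun k _ => ?_
      push_cast
      ring
    rw [h2, hz i, zero_sub, neg_neg, sum_eq_single i]
    · simp
    · intro k _ hk
      rw [if_neg (Ne.symm hk)]
      simp
    · intro h3
      exact absurd (mem_univ i) h3
  have h2 : |κ i| * ‖h i‖ ≤ (Fintype.card ι : ℝ) * τ * ‖h i‖ := by
    have h3 : |κ i| * ‖h i‖ = ‖(κ i : ℂ) * h i‖ := by
      rw [norm_mul, Complex.norm_real, Real.norm_eq_abs]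
    rw [h3, h1, norm_neg]
    refine (norm_sum_le _ _).trans ?_
    have h4 : ∀ k ∈ (univ : Finset ι),
        ‖((Q i k - (if i = k then κ i else 0) : ℝ) : ℂ) * h k‖ ≤ τ * ‖h i‖ := by
      intro k _
      rw [norm_mul, Complex.norm_real, Real.norm_eq_abs]
      exact mul_le_mul (hQ i k) (hi k) (norm_nonneg _) ((abs_nonneg _).trans (hQ i k))
    refine (sum_le_sum h4).trans (le_of_eq ?_)
    rw [sum_const, card_univ, nsmul_eq_mul]
    ring
  have h3 := le_of_mul_le_mul_right h2 hin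
  exact absurd (hκ i) (not_lt.2 h3)

end Pool.Agent.Helper26.PP
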