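import Pool.Agent.Helper26.PP.Est
import Pool.Agent.Helper26.PP.Eig

/-!
# The multipliers at the fixed point at infinity
-/

set_option autoImplicit false

namespace Pool.Agent.Helper26.PP

open Finset MvPolynomial

variable {m d : ℕ} {lam : ℝ} {Φ : Fin (m + 1) → MvPolynomial (Fin (m + 1)) ℝ}

/-- the Jacobian matrix of the forms of degree `d` -/
noncomputable def Jd (d : ℕ) (Φ : Fin (m + 1) → MvPolynomial (Fin (m + 1)) ℝ)
    (v : Fin (m + 1) → ℝ) (i j : Fin (m + 1)) : ℝ := eval v (pderiv j (Fd d Φ i))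

/-- the Jacobian matrix of the map of the directions -/
noncomputable def Qd (d : ℕ) (Φ : Fin (m + 1) → MvPolynomial (Fin (m + 1)) ℝ)
    (v : Fin (m + 1) → ℝ) (i j : Fin m) : ℝ :=
  (Jd d Φ v i.castSucc j.castSucc - v i.castSucc * Jd d Φ v (Fin.last m) j.castSucc) /
    eval v (Fd d Φ (Fin.last m))

theorem Jd_eq (i j : Fin (m + 1)) (v : Fin (m + 1) → ℝ) :
    Jd d Φ v i j = lam * eval v (pderiv j (R0 m d (kap m d) i)) +
      eval v (pderiv j (Er d (kap m d) lam Φ i)) := by
  rw [Jd, Fd_eq (kap m d) lam, map_add, map_add, Derivation.leibniz]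
  simp

theorem Er_pderiv_le (hd : 1 ≤ d) (hlam : 0 ≤ lam) (hC : Cone m d (kap m d) (eps m d) lam Φ)
    {v : Fin (m + 1) → ℝ} (hv : ∀ i, |v i| ≤ 1) (i j : Fin (m + 1)) :
    |eval v (pderiv j (Er d (kap m d) lam Φ i))| ≤ lam * (er m d * d) := by
  refine (pderiv_le (Er_hom hd i).totalDegree_le (coeff_Er hd hlam (eps_pos hd).le hC i)
    hv j).trans (le_of_eq ?_)
  rw [er]
  ring

theorem pderiv_R0_last (hd : 1 ≤ d) (κ : ℝ) (v : Fin (m + 1) → ℝ) (j : Fin (m + 1)) :
    eval v (pderiv j (R0 m d κ (Fin.last m))) = d * v j ^ (d - 1) := by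
  classical
  rw [R0, if_pos rfl, map_sum, map_sum, Finset.sum_eq_single j]
  · rw [pderiv_monomial, Finsupp.single_eq_same, ← Finsupp.single_tsub, eval_monomial,
      Finsupp.prod_single_index, one_mul]
    exact pow_zero _
  · intro k _ hk
    rw [pderiv_monomial, Finsupp.single_eq_of_ne (Ne.symm hk)]
    simp
  · intro h
    exact absurd (mem_univ j) h

theorem pderiv_R0_ne (κ : ℝ) (v : Fin (m + 1) → ℝ) (hv : v (Fin.last m) = 1) (i j : Fin m) :
    eval v (pderiv j.castSucc (R0 m d κ i.castSucc)) =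
      if i = j then ((i : ℕ) + 1) * κ else 0 := by
  classical
  have hi : i.castSucc ≠ Fin.last m := (Fin.castSucc_lt_last i).ne
  have hj : j.castSucc ≠ Fin.last m := (Fin.castSucc_lt_last j).ne
  rw [R0, if_neg hi, pderiv_monomial, eval_monomial]
  by_cases hij : i = j
  · subst hij
    rw [if_pos rfl]
    have h1 : (Finsupp.single i.castSucc 1 + Finsupp.single (Fin.last m) (d - 1) : Fin (m + 1) →₀ ℕ)
        i.castSucc = 1 := by
      rw [Finsupp.add_apply, Finsupp.single_eq_same, Finsupp.single_eq_of_ne hi, add_zero]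
    rw [h1, add_tsub_cancel_left, Finsupp.prod_single_index, hv, one_pow]
    · simp
    · exact pow_zero _
  · rw [if_neg hij]
    have h1 : (Finsupp.single i.castSucc 1 + Finsupp.single (Fin.last m) (d - 1) : Fin (m + 1) →₀ ℕ)
        j.castSucc = 0 := by
      have hji : j.castSucc ≠ i.castSucc := fun h => hij (Fin.castSucc_injective _ h).symm
      rw [Finsupp.add_apply, Finsupp.single_eq_of_ne hji, Finsupp.single_eq_of_ne hj, add_zero]
    rw [h1]
    simp

/-- The data at the fixed point. -/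
theorem v_le (hd : 2 ≤ d) (he : Even d) (hlam : 0 < lam)
    (hC : Cone m d (kap m d) (eps m d) lam Φ) {v : Fin (m + 1) → ℝ} (hv : ∀ i, |v i| ≤ 1)
    (hvl : v (Fin.last m) = 1)
    (hF : ∀ i, eval v (Fd d Φ i) = eval v (Fd d Φ (Fin.last m)) * v i) :
    (∀ i : Fin m, |v i.castSucc| ≤ 2 * er m d) ∧
      |eval v (Fd d Φ (Fin.last m)) - lam| ≤ 2 * lam * er m d ∧
      lam / 2 ≤ eval v (Fd d Φ (Fin.last m)) := by
  have hd1 : 1 ≤ d := by omega
  obtain ⟨c1, c2, c3, c4, c5, c6, c7, c8, c9⟩ := consts (m := m) hd1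
  have hc := last_ge_half hd1 he hlam hC hv ⟨Fin.last m, by rw [hvl, abs_one]⟩
  have hc' := last_ge hd1 he hlam hC hv ⟨Fin.last m, by rw [hvl, abs_one]⟩
  rw [one_pow, mul_one] at hc hc'
  have h1 : ∀ i : Fin m, |v i.castSucc| ≤ 2 * er m d := by
    intro i
    have hi : i.castSucc ≠ Fin.last m := (Fin.castSucc_lt_last i).ne
    have h2 := hF i.castSucc
    rw [eval_Fd (lam := lam) i.castSucc, eval_R0_ne _ _ hi, hvl, one_pow, mul_one] at h2
    have h3 := Er_le hd1 hlam.le hC i.castSucc hv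
    rw [one_pow, mul_one] at h3
    set c := eval v (Fd d Φ (Fin.last m))
    set k : ℝ := (((i.castSucc : Fin (m + 1)) : ℕ) + 1) * kap m d
    have hk0 : 0 ≤ k := by positivity
    have hk : k ≤ 1 / 64 := (mul_le_mul_of_nonneg_right index_le c2.le).trans c7
    have h4 : (c - lam * k) * v i.castSucc = eval v (Er d (kap m d) lam Φ i.castSucc) := by
      linarith
    have h5 : lam / 2 ≤ c - lam * k := by nlinarith
    have h6 : |c - lam * k| * |v i.castSucc| ≤ lam * er m d := by
      rw [← abs_mul, h4]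
      exact h3
    rw [abs_of_pos (by linarith : 0 < c - lam * k)] at h6
    have h7 : lam / 2 * |v i.castSucc| ≤ (c - lam * k) * |v i.castSucc| :=
      mul_le_mul_of_nonneg_right h5 (abs_nonneg _)
    have h8 : lam * (|v i.castSucc| / 2) ≤ lam * er m d := by linarith
    linarith [le_of_mul_le_mul_left h8 hlam]
  refine ⟨h1, ?_, hc⟩
  rw [eval_Fd (lam := lam) (Fin.last m), eval_R0_last hd1, Fin.sum_univ_castSucc, hvl, one_pow]
  have h3 := Er_le hd1 hlam.le hC (Fin.last m) hv
  rw [one_pow, mul_one] at h3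
  have h4 : |∑ i : Fin m, v i.castSucc ^ d| ≤ er m d := by
    refine (abs_sum_le_sum_abs _ _).trans ?_
    have h5 : ∀ i ∈ (univ : Finset (Fin m)), |v i.castSucc ^ d| ≤ (2 * er m d) ^ 2 := by
      intro i _
      rw [abs_pow]
      refine (pow_le_pow_left₀ (abs_nonneg _) (h1 i) d).trans ?_
      exact pow_le_pow_of_le_one (by positivity) (by linarith) hd
    refine (sum_le_sum h5).trans ?_
    rw [sum_const, card_univ, Fintype.card_fin, nsmul_eq_mul]
    have hdd : (1 : ℝ) ≤ d := by exact_mod_cast hd1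
    have hm0 : (0 : ℝ) ≤ m := Nat.cast_nonneg _
    have h6 : (m : ℝ) * er m d ≤ 1 / 4 := by
      have h7 : (m : ℝ) * er m d ≤ (m + 1) * (er m d * d) := by
        have : (m : ℝ) * er m d ≤ (m + 1) * er m d := by nlinarith
        refine this.trans (mul_le_mul_of_nonneg_left ?_ (by positivity))
        exact le_mul_of_one_le_right c1.le hdd
      linarith
    nlinarith
  have h5 : lam * (∑ i : Fin m, v i.castSucc ^ d + 1) +
      eval v (Er d (kap m d) lam Φ (Fin.last m)) - lam =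
      lam * ∑ i : Fin m, v i.castSucc ^ d + eval v (Er d (kap m d) lam Φ (Fin.last m)) := by ring
  rw [h5]
  refine (abs_add_le _ _).trans ?_
  rw [abs_mul, abs_of_pos hlam]
  nlinarith

/-- The Jacobian matrix of the directions is close to a diagonal matrix. -/
theorem Qd_close (hd : 2 ≤ d) (he : Even d) (hlam : 0 < lam)
    (hC : Cone m d (kap m d) (eps m d) lam Φ) {v : Fin (m + 1) → ℝ} (hv : ∀ i, |v i| ≤ 1)
    (hvl : v (Fin.last m) = 1)
    (hF : ∀ i, eval v (Fd d Φ i) = eval v (Fd d Φ (Fin.last m)) * v i) (i j : Fin m) :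
    |Qd d Φ v i j - (if i = j then (((i : ℕ) : ℝ) + 1) * kap m d else 0)| ≤
      14 * (er m d * d) := by
  have hd1 : 1 ≤ d := by omega
  obtain ⟨c1, c2, c3, c4, c5, c6, c7, c8, c9⟩ := consts (m := m) hd1
  obtain ⟨h1, h2, h3⟩ := v_le hd he hlam hC hv hvl hF
  have hdd : (1 : ℝ) ≤ d := by exact_mod_cast hd1
  rw [Qd, Jd_eq (lam := lam), Jd_eq (lam := lam) (Fin.last m), pderiv_R0_last hd1,
    pderiv_R0_ne _ _ hvl]
  have e1 := Er_pderiv_le hd1 hlam.le hC hv i.castSucc j.castSucc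
  have e2 := Er_pderiv_le hd1 hlam.le hC hv (Fin.last m) j.castSucc
  have hvi := h1 i
  set c := eval v (Fd d Φ (Fin.last m))
  set k : ℝ := if i = j then (((i : ℕ) : ℝ) + 1) * kap m d else 0 with hk
  have hk0 : 0 ≤ k := by
    rw [hk]
    split_ifs
    · positivity
    · exact le_rfl
  have hk1 : k ≤ 1 := by
    rw [hk]
    split_ifs
    · have h := mul_le_mul_of_nonneg_right (index_le (i := i.castSucc)) c2.le
      have h' : (((i : ℕ) : ℝ) + 1) * kap m d ≤ (m + 1) * kap m d := h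
      linarith
    · exact zero_le_one
  set a := eval v (pderiv j.castSucc (Er d (kap m d) lam Φ i.castSucc))
  set b := eval v (pderiv j.castSucc (Er d (kap m d) lam Φ (Fin.last m)))
  have hc0 : 0 < c := by linarith
  have hp : |v j.castSucc ^ (d - 1)| ≤ 1 := by
    rw [abs_pow]
    exact pow_le_one₀ (abs_nonneg _) (hv _)
  have h4 : (lam * k + a - v i.castSucc * (lam * (d * v j.castSucc ^ (d - 1)) + b)) / c - k =
      (k * (lam - c) + a - v i.castSucc * (lam * (d * v j.castSucc ^ (d - 1)) + b)) / c := by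
    field_simp
    ring
  rw [h4, abs_div, abs_of_pos hc0, div_le_iff₀ hc0]
  clear h4 hF
  have t1 : |k * (lam - c)| ≤ 2 * lam * (er m d * d) := by
    rw [abs_mul, abs_of_nonneg hk0, abs_sub_comm]
    refine (mul_le_of_le_one_left (abs_nonneg _) hk1).trans (h2.trans ?_)
    refine mul_le_mul_of_nonneg_left ?_ (by positivity)
    exact le_mul_of_one_le_right c1.le hdd
  have t2 : |lam * (d * v j.castSucc ^ (d - 1)) + b| ≤ lam * d * 2 := by
    refine (abs_add_le _ _).trans ?_
    have h5 : |lam * (d * v j.castSucc ^ (d - 1))| ≤ lam * d := by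
      rw [← mul_assoc, abs_mul, abs_of_nonneg (by positivity : (0 : ℝ) ≤ lam * d)]
      exact mul_le_of_le_one_right (by positivity) hp
    have h6 : lam * (er m d * d) ≤ lam * d := by
      refine mul_le_mul_of_nonneg_left ?_ hlam.le
      exact mul_le_of_le_one_left (by positivity) (by linarith)
    linarith
  have t3 : |v i.castSucc * (lam * (d * v j.castSucc ^ (d - 1)) + b)| ≤
      2 * er m d * (lam * d * 2) := by
    rw [abs_mul]
    exact mul_le_mul hvi t2 (abs_nonneg _) (by positivity)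
  have t4 := abs_sub (k * (lam - c) + a)
    (v i.castSucc * (lam * (d * v j.castSucc ^ (d - 1)) + b))
  have t5 := abs_add_le (k * (lam - c)) a
  have t6 : 14 * (er m d * d) * (lam / 2) ≤ 14 * (er m d * d) * c :=
    mul_le_mul_of_nonneg_left h3 (by positivity)
  have t7 : 0 ≤ lam * (er m d * d) := by positivity
  nlinarith

/-- the reduction to the directions -/
theorem reduce {v : Fin (m + 1) → ℝ} (hc : eval v (Fd d Φ (Fin.last m)) ≠ 0)
    (hvl : v (Fin.last m) = 1)
    (hF : ∀ i, eval v (Fd d Φ i) = eval v (Fd d Φ (Fin.last m)) * v i)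
    (h : Fin (m + 1) → ℂ) (z β : ℂ)
    (hh : ∀ i, ∑ j, h j * (Jd d Φ v i j : ℂ) -
      (eval v (Fd d Φ (Fin.last m)) : ℝ) * z * h i = β * v i) (i : Fin m) :
    ∑ j : Fin m, (Qd d Φ v i j : ℂ) * (h j.castSucc - h (Fin.last m) * v j.castSucc) =
      z * (h i.castSucc - h (Fin.last m) * v i.castSucc) := by
  set c := eval v (Fd d Φ (Fin.last m)) with hcdef
  have hcC : (c : ℂ) ≠ 0 := by exact_mod_cast hc
  -- Euler
  have heul : ∀ i, ∑ j, (v j : ℂ) * (Jd d Φ v i j : ℂ) = d * c * v i := by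
    intro i
    have h1 := congrArg (eval v) (IsHomogeneous.sum_X_mul_pderiv
      (homogeneousComponent_isHomogeneous d (Φ i)))
    rw [map_sum, nsmul_eq_mul, map_mul, map_natCast] at h1
    simp only [map_mul, eval_X] at h1
    have h2 : ∑ j, v j * Jd d Φ v i j = d * (c * v i) := by
      rw [← hF i]
      exact h1
    have h3 := congrArg (fun t : ℝ => (t : ℂ)) h2
    push_cast at h3
    rw [h3]
    ring
  set g : Fin (m + 1) → ℂ := fun j => h j - h (Fin.last m) * v j with hg
  have hgl : g (Fin.last m) = 0 := by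
    rw [hg]
    simp only [hvl, Complex.ofReal_one, mul_one, sub_self]
  have h1 : ∀ i, ∑ j, g j * (Jd d Φ v i j : ℂ) - c * z * g i =
      (β - h (Fin.last m) * (d * c) + c * z * h (Fin.last m)) * v i := by
    intro i
    have h2 : ∑ j, g j * (Jd d Φ v i j : ℂ) = ∑ j, h j * (Jd d Φ v i j : ℂ) -
        h (Fin.last m) * ∑ j, (v j : ℂ) * (Jd d Φ v i j : ℂ) := by
      rw [Finset.mul_sum, ← sum_sub_distrib]
      refine sum_congr rfl fun j _ => ?_
      rw [hg]
      ring
    have h3 := hh i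
    rw [h2, heul i]
    have h4 : ∑ j, h j * (Jd d Φ v i j : ℂ) = β * v i + c * z * h i := by
      rw [← h3]
      ring
    rw [h4, hg]
    ring
  have h2 := h1 (Fin.last m)
  rw [hgl, mul_zero, sub_zero, hvl, Complex.ofReal_one, mul_one] at h2
  have h3 := h1 i.castSucc
  rw [← h2] at h3
  rw [Fin.sum_univ_castSucc, Fin.sum_univ_castSucc, hgl, zero_mul, add_zero, zero_mul,
    add_zero] at h3
  have h4 : ∑ j : Fin m, (Qd d Φ v i j : ℂ) * g j.castSucc =
      (∑ j : Fin m, g j.castSucc * (Jd d Φ v i.castSucc j.castSucc : ℂ) -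
        (∑ j : Fin m, g j.castSucc * (Jd d Φ v (Fin.last m) j.castSucc : ℂ)) * v i.castSucc) /
        c := by
    rw [Finset.sum_mul, ← sum_sub_distrib, Finset.sum_div]
    refine sum_congr rfl fun j _ => ?_
    rw [Qd]
    push_cast
    rw [← hcdef]
    ring
  rw [h4, div_eq_iff hcC]
  linear_combination h3

theorem one_le_abs_idx {i j : Fin m} (hij : i ≠ j) :
    1 ≤ |((i : ℕ) : ℝ) + 1 - (((j : ℕ) : ℝ) + 1)| := by
  have h2 : ((i : ℕ) : ℤ) - ((j : ℕ) : ℤ) ≠ 0 := fun h3 => hij (Fin.ext (by omega))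
  have h3 : (1 : ℝ) ≤ ((|((i : ℕ) : ℤ) - ((j : ℕ) : ℤ)| : ℤ) : ℝ) := by
    exact_mod_cast Int.one_le_abs h2
  rw [Int.cast_abs] at h3
  push_cast at h3
  refine h3.trans (le_of_eq ?_)
  congr 1
  ring

/-- **The multipliers are positive**, and the differential is injective. -/
theorem mult_pos (hd : 2 ≤ d) (he : Even d) (hlam : 0 < lam)
    (hC : Cone m d (kap m d) (eps m d) lam Φ) {v : Fin (m + 1) → ℝ} (hv : ∀ i, |v i| ≤ 1)
    (hvl : v (Fin.last m) = 1)
    (hF : ∀ i, eval v (Fd d Φ i) = eval v (Fd d Φ (Fin.last m)) * v i) :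
    (∀ (h : Fin (m + 1) → ℂ) (β : ℂ), (∀ i, ∑ j, h j * (Jd d Φ v i j : ℂ) = β * v i) →
      ∃ γ : ℂ, ∀ i, h i = γ * v i) ∧
    ∀ (h : Fin (m + 1) → ℂ) (z β : ℂ), (¬ ∃ γ : ℂ, ∀ i, h i = γ * v i) →
      (∀ i, ∑ j, h j * (Jd d Φ v i j : ℂ) -
        (eval v (Fd d Φ (Fin.last m)) : ℝ) * z * h i = β * v i) → z.im = 0 ∧ 0 < z.re := by
  have hd1 : 1 ≤ d := by omega
  obtain ⟨c1, c2, c3, c4, c5, c6, c7, c8, c9⟩ := consts (m := m) hd1
  obtain ⟨-, -, h3⟩ := v_le hd he hlam hC hv hvl hF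
  have hc : eval v (Fd d Φ (Fin.last m)) ≠ 0 := by linarith
  have hclose := Qd_close hd he hlam hC hv hvl hF
  have hm0 : (0 : ℝ) ≤ m := Nat.cast_nonneg _
  have hmτ : (m : ℝ) * (14 * (er m d * d)) ≤ 14 * (kap m d / 200) := by
    rw [← c9]
    have : 0 ≤ er m d * d := by positivity
    nlinarith
  have hback : ∀ h : Fin (m + 1) → ℂ,
      (fun j : Fin m => h j.castSucc - h (Fin.last m) * v j.castSucc) = 0 →
      ∃ γ : ℂ, ∀ i, h i = γ * v i := by
    intro h h0
    refine ⟨h (Fin.last m), fun i => ?_⟩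
    refine Fin.lastCases ?_ (fun j => ?_) i
    · rw [hvl, Complex.ofReal_one, mul_one]
    · exact sub_eq_zero.1 (congrFun h0 j)
  have hkap : ∀ i : Fin m, (Fintype.card (Fin m) : ℝ) * (14 * (er m d * d)) <
      (((i : ℕ) : ℝ) + 1) * kap m d := by
    intro i
    rw [Fintype.card_fin]
    have : kap m d ≤ (((i : ℕ) : ℝ) + 1) * kap m d := by
      have : (0 : ℝ) ≤ ((i : ℕ) : ℝ) := Nat.cast_nonneg _
      nlinarith
    linarith
  refine ⟨fun h β hh => hback h ?_, fun h z β hne hh => ⟨?_, ?_⟩⟩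
  · refine eq_zero_of_close (Qd d Φ v) (fun i : Fin m => (((i : ℕ) : ℝ) + 1) * kap m d)
      (14 * (er m d * d)) (fun i j => hclose i j) (fun i => ?_) _ fun i => ?_
    · rw [abs_of_nonneg (by positivity)]
      exact hkap i
    · have h1 := reduce hc hvl hF h 0 β (fun i => by rw [mul_zero, zero_mul, sub_zero]; exact hh i) i
      rw [zero_mul] at h1
      exact h1
  · refine im_zero_of_close (Qd d Φ v) (fun i : Fin m => (((i : ℕ) : ℝ) + 1) * kap m d)
      (14 * (er m d * d)) (kap m d) (by positivity) (fun i j => hclose i j) (fun i j hij => ?_) ?_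
      (fun j => h j.castSucc - h (Fin.last m) * v j.castSucc) (fun h0 => hne (hback h h0)) z
      fun i => reduce hc hvl hF h z β hh i
    · rw [← sub_mul, abs_mul, abs_of_pos c2]
      refine le_mul_of_one_le_left c2.le ?_
      exact one_le_abs_idx hij
    · rw [Fintype.card_fin]
      nlinarith
  · exact re_pos_of_close (Qd d Φ v) (fun i : Fin m => (((i : ℕ) : ℝ) + 1) * kap m d)
      (14 * (er m d * d)) (by positivity) (fun i j => hclose i j) hkap
      (fun j => h j.castSucc - h (Fin.last m) * v j.castSucc) (fun h0 => hne (hback h h0)) z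
      fun i => reduce hc hvl hF h z β hh i

end Pool.Agent.Helper26.PP
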