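import Pool.Agent.Helper26.PP.Step

/-!
# Orbits of real points: bounded, or convergence of the directions
-/

set_option autoImplicit false

namespace Pool.Agent.Helper26.PP

open Finset MvPolynomial Filter Topology
open Pool.Agent.Helper86.MQ (pm)

variable {m d : ℕ} {lam : ℝ} {Φ : Fin (m + 1) → MvPolynomial (Fin (m + 1)) ℝ}

/-- the map of the directions -/
noncomputable def Gd (d : ℕ) (Φ : Fin (m + 1) → MvPolynomial (Fin (m + 1)) ℝ)
    (w : Fin (m + 1) → ℝ) : Fin (m + 1) → ℝ :=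
  fun i => eval w (Fd d Φ i) / eval w (Fd d Φ (Fin.last m))

/-- Orbits in the region of the large points converge. -/
theorem orbit_limit (hd : 2 ≤ d) (he : Even d) (hlam : 0 < lam)
    (hC : Cone m d (kap m d) (eps m d) lam Φ) {K M₀ : ℝ} (hK : 0 ≤ K) (hM : 1 ≤ M₀)
    (z : ℕ → Fin (m + 1) → ℝ) (hz1 : ∀ n, M₀ * 4 ^ n ≤ |z n (Fin.last m)|)
    (hz2 : ∀ n i, |z n i| ≤ |z n (Fin.last m)|)
    (hz3 : ∀ n i, |z (n + 1) i / z (n + 1) (Fin.last m) -
      Gd d Φ (fun j => z n j / z n (Fin.last m)) i| ≤ K / |z n (Fin.last m)|) :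
    ∃ (v : Fin (m + 1) → ℝ) (A : ℝ), v (Fin.last m) = 1 ∧ (∀ i, |v i| ≤ 1) ∧ 0 ≤ A ∧
      (∀ n i, |z n i / z n (Fin.last m) - v i| ≤ A * (1 / 2) ^ n) ∧
      (∀ n, |1 / z n (Fin.last m)| ≤ (1 / 2) ^ n) ∧
      ∀ i, eval v (Fd d Φ i) = eval v (Fd d Φ (Fin.last m)) * v i := by
  have hd1 : 1 ≤ d := by omega
  set w : ℕ → Fin (m + 1) → ℝ := fun n j => z n j / z n (Fin.last m) with hw
  have h4 : ∀ n : ℕ, (1 : ℝ) ≤ 4 ^ n := fun n => one_le_pow₀ (by norm_num)
  have hz4 : ∀ n, (4 : ℝ) ^ n ≤ |z n (Fin.last m)| := fun n =>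
    (by nlinarith [h4 n] : (4 : ℝ) ^ n ≤ M₀ * 4 ^ n).trans (hz1 n)
  have hzpos : ∀ n, 0 < |z n (Fin.last m)| := fun n =>
    lt_of_lt_of_le (by positivity) (hz4 n)
  have hzne : ∀ n, z n (Fin.last m) ≠ 0 := fun n => abs_pos.1 (hzpos n)
  have hwl : ∀ n, w n (Fin.last m) = 1 := fun n => div_self (hzne n)
  have hw1 : ∀ n i, |w n i| ≤ 1 := by
    intro n i
    rw [hw]
    simp only [abs_div]
    exact (div_le_one (hzpos n)).2 (hz2 n i)
  have hG : ∀ n i, |w (n + 1) i - Gd d Φ (w n) i| ≤ K * (1 / 4) ^ n := by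
    intro n i
    refine (hz3 n i).trans ?_
    rw [div_eq_mul_inv, one_div, inv_pow]
    exact mul_le_mul_of_nonneg_left (inv_anti₀ (by positivity) (hz4 n)) hK
  have hcon : ∀ (x y : Fin (m + 1) → ℝ) (δ : ℝ), (∀ i, |x i| ≤ 1) → (∀ i, |y i| ≤ 1) →
      (∀ i, |x i - y i| ≤ δ) → x (Fin.last m) = 1 → y (Fin.last m) = 1 → ∀ i,
      |Gd d Φ x i - Gd d Φ y i| ≤ δ / 2 := fun x y δ hx hy h hx1 hy1 i =>
    contract hd1 he hlam hC hx hy h hx1 hy1 i
  have ha : ∀ n i, |w (n + 1) i - w n i| ≤ (2 + 8 * K - 8 * K * (1 / 2) ^ n) * (1 / 2) ^ n := by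
    intro n
    induction n with
    | zero =>
      intro i
      rw [pow_zero, mul_one, mul_one]
      refine (abs_sub _ _).trans ?_
      linarith [hw1 1 i, hw1 0 i]
    | succ n ih =>
      intro i
      have h1 := hG (n + 1) i
      have h2 := hG n i
      have h3 := hcon (w (n + 1)) (w n) _ (hw1 _) (hw1 _) ih (hwl _) (hwl _) i
      have h5 : w (n + 1 + 1) i - w (n + 1) i = (w (n + 1 + 1) i - Gd d Φ (w (n + 1)) i) +
          (Gd d Φ (w (n + 1)) i - Gd d Φ (w n) i) - (w (n + 1) i - Gd d Φ (w n) i) := by ring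
      rw [h5]
      refine (abs_sub _ _).trans ?_
      have h6 := abs_add_le (w (n + 1 + 1) i - Gd d Φ (w (n + 1)) i)
        (Gd d Φ (w (n + 1)) i - Gd d Φ (w n) i)
      have h7 : (1 / 4 : ℝ) ^ n = (1 / 2) ^ n * (1 / 2) ^ n := by
        rw [← mul_pow]
        norm_num
      rw [pow_succ (1 / 4 : ℝ), h7] at h1
      rw [h7] at h2
      rw [pow_succ (1 / 2 : ℝ)]
      set q := (1 / 2 : ℝ) ^ n with hq
      have hq0 : 0 < q := by positivity
      have hKq : 0 ≤ K * (q * q) := by positivity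
      nlinarith
  have hdist : ∀ n, dist (w n) (w (n + 1)) ≤ (2 + 8 * K) * (1 / 2) ^ n := by
    intro n
    rw [dist_comm, dist_pi_le_iff (by positivity)]
    intro i
    rw [Real.dist_eq]
    refine (ha n i).trans (mul_le_mul_of_nonneg_right ?_ (by positivity))
    have : 0 ≤ 8 * K * (1 / 2) ^ n := by positivity
    linarith
  have hcau := cauchySeq_of_le_geometric (1 / 2 : ℝ) (2 + 8 * K) (by norm_num) hdist
  obtain ⟨v, hv⟩ := cauchySeq_tendsto_of_complete hcau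
  have hv1 := fun n => dist_le_of_le_geometric_of_tendsto (1 / 2 : ℝ) (2 + 8 * K) (by norm_num)
    hdist hv n
  have hvi : ∀ i, Tendsto (fun n => w n i) atTop (𝓝 (v i)) := fun i =>
    (tendsto_pi_nhds.1 hv) i
  have hvl : v (Fin.last m) = 1 := by
    refine tendsto_nhds_unique (hvi (Fin.last m)) ?_
    simp only [hwl]
    exact tendsto_const_nhds
  have hvle : ∀ i, |v i| ≤ 1 := fun i =>
    le_of_tendsto ((hvi i).abs) (Eventually.of_forall fun n => hw1 n i)
  have hvn : ∀ n i, |w n i - v i| ≤ 2 * (2 + 8 * K) * (1 / 2) ^ n := by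
    intro n i
    have h1 := (dist_le_pi_dist (w n) v i).trans (hv1 n)
    rw [Real.dist_eq] at h1
    refine h1.trans (le_of_eq ?_)
    ring
  have hFv := last_ge_half hd1 he hlam hC hvle ⟨Fin.last m, by rw [hvl, abs_one]⟩
  rw [one_pow, mul_one] at hFv
  refine ⟨v, 2 * (2 + 8 * K), hvl, hvle, by positivity, hvn, fun n => ?_, fun i => ?_⟩
  · rw [abs_div, abs_one, one_div_pow]
    refine one_div_le_one_div_of_le (by positivity) ((?_ : (2 : ℝ) ^ n ≤ 4 ^ n).trans (hz4 n))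
    exact pow_le_pow_left₀ (by norm_num) (by norm_num) n
  · -- `G v = v`
    have h1 : ∀ n, |Gd d Φ v i - v i| ≤ (2 + 8 * K + K + 2 * (2 + 8 * K)) * (1 / 2) ^ n := by
      intro n
      have h2 := hcon v (w n) _ hvle (hw1 n) (fun j => by rw [abs_sub_comm]; exact hvn n j) hvl
        (hwl n) i
      have h3 := hG n i
      have h5 := hvn (n + 1) i
      have h6 : Gd d Φ v i - v i = (Gd d Φ v i - Gd d Φ (w n) i) -
          (w (n + 1) i - Gd d Φ (w n) i) + (w (n + 1) i - v i) := by ring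
      rw [h6]
      refine (abs_add_le _ _).trans ?_
      have h7 := abs_sub (Gd d Φ v i - Gd d Φ (w n) i) (w (n + 1) i - Gd d Φ (w n) i)
      have h8 : (1 / 4 : ℝ) ^ n ≤ (1 / 2) ^ n :=
        pow_le_pow_left₀ (by norm_num) (by norm_num) n
      have h9 := mul_le_mul_of_nonneg_left h8 hK
      rw [pow_succ] at h5
      have hq0 : (0 : ℝ) < (1 / 2) ^ n := by positivity
      have hKq : 0 ≤ K * (1 / 2) ^ n := by positivity
      nlinarith
    have h2 : Gd d Φ v i - v i = 0 := by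
      have h3 : Tendsto (fun n : ℕ => (2 + 8 * K + K + 2 * (2 + 8 * K)) * (1 / 2 : ℝ) ^ n) atTop
          (𝓝 0) := by
        have := (tendsto_pow_atTop_nhds_zero_of_lt_one (by norm_num : (0 : ℝ) ≤ 1 / 2)
          (by norm_num)).const_mul (2 + 8 * K + K + 2 * (2 + 8 * K))
        rwa [mul_zero] at this
      have h4 := ge_of_tendsto h3 (Eventually.of_forall h1)
      exact abs_nonpos_iff.1 h4
    have h3 : eval v (Fd d Φ i) / eval v (Fd d Φ (Fin.last m)) = v i := sub_eq_zero.1 h2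
    rw [← h3, mul_div_cancel₀]
    linarith

end Pool.Agent.Helper26.PP
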