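import Pool.Agent.Helper52.PP.Affine

/-!
# Orbits of polynomial maps of affine space attracted by an unramified point at infinity with positive
multipliers
-/

set_option autoImplicit false

namespace Pool.Agent.Helper26.PP

open Filter Topology MvPolynomial
open Pool.Agent.Helper86.MQ (pm)
open Pool.Agent.Helper52.AT (affine_main)
open Pool.Agent.Helper52.PP

variable {m : ℕ}

/-- **Orbits attracted by an unramified point at infinity with positive multipliers.** -/
theorem affine_pos {d : ℕ} (hd : 2 ≤ d) {Φ : Fin (m + 1) → MvPolynomial (Fin (m + 1)) ℂ}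
    (hdeg : ∀ i, (Φ i).totalDegree ≤ d) (α : Fin (m + 1) → ℂ) {v : Fin (m + 1) → ℂ}
    (hv : v (Fin.last m) = 1) {ρ : ℝ} (hρ0 : 0 < ρ) (hρ1 : ρ < 1)
    (hx : ∃ C : ℝ, ∀ᶠ n in atTop, (pm Φ)^[n] α (Fin.last m) ≠ 0 ∧
      ‖((pm Φ)^[n] α (Fin.last m))⁻¹‖ ≤ C * ρ ^ n ∧
      ∀ i, ‖(pm Φ)^[n] α i / (pm Φ)^[n] α (Fin.last m) - v i‖ ≤ C * ρ ^ n)
    {c : ℂ} (hc : c ≠ 0) (hF : ∀ i, eval v (homogeneousComponent d (Φ i)) = c * v i)
    (hinj : ∀ h : Fin m → ℂ, (∀ i, ∑ j, qm d Φ v i j * h j = 0) → h = 0)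
    (hreal : ∀ (z : ℂ) (h : Fin m → ℂ), h ≠ 0 →
      (∀ i, ∑ j, qm d Φ v i j * h j = c * z * h i) → z.im = 0 ∧ 0 < z.re)
    (V : Set (MvPolynomial (Fin (m + 1)) ℂ)) :
    {n : ℕ | ∀ G ∈ V, eval ((pm Φ)^[n] α) G = 0}.Finite ∨
      ∃ n₀ : ℕ, ∀ n ≥ n₀, ∀ G ∈ V, eval ((pm Φ)^[n] α) G = 0 := by
  classical
  obtain ⟨C₁, hx⟩ := hx
  set x : ℕ → Fin (m + 1) → ℂ := fun n => (pm Φ)^[n] α with hxdef
  have hxs : ∀ n i, x (n + 1) i = eval (x n) (Φ i) := by
    intro n i
    simp only [hxdef]
    rw [Function.iterate_succ_apply', pm]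
  set y : ℕ → Fin (m + 1) → ℂ := fun n => yc v (x n) with hy
  set Q : MvPolynomial (Fin (m + 1)) ℂ := hm d v (Φ (Fin.last m)) with hQ
  set P : Fin (m + 1) → MvPolynomial (Fin (m + 1)) ℂ := fun i =>
    if i = Fin.last m then X (Fin.last m) ^ d else hm d v (Φ i) - C (v i) * Q with hP
  have hd0 : d ≠ 0 := by omega
  have hQ0 : eval 0 Q = c := by
    rw [hQ, hm_zero v hv (hdeg _), hF, hv, mul_one]
  have hylast : ∀ n, y n (Fin.last m) = (x n (Fin.last m))⁻¹ := by
    intro n
    exact if_pos rfl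
  have hyne : ∀ n i, i ≠ Fin.last m → y n i = x n i / x n (Fin.last m) - v i := by
    intro n i hi
    exact if_neg hi
  have hPlast : P (Fin.last m) = X (Fin.last m) ^ d := if_pos rfl
  have hPne : ∀ i, i ≠ Fin.last m → P i = hm d v (Φ i) - C (v i) * Q := by
    intro i hi
    exact if_neg hi
  have hx1 : ∀ᶠ n in atTop, x n (Fin.last m) ≠ 0 ∧ x (n + 1) (Fin.last m) ≠ 0 := by
    filter_upwards [hx, (tendsto_add_atTop_nat 1).eventually hx] with n h1 h2
    exact ⟨h1.1, h2.1⟩
  have hQx : ∀ n, x n (Fin.last m) ≠ 0 →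
      eval (y n) Q * x n (Fin.last m) ^ d = x (n + 1) (Fin.last m) := by
    intro n hn
    rw [hxs]
    exact eval_hm v (x n) (hdeg _) hn
  -- the derivative of the last component
  have hlastd : ∀ h : Fin (m + 1) → ℂ, ∑ j, h j * eval 0 (pderiv j (P (Fin.last m))) = 0 := by
    intro h
    refine Finset.sum_eq_zero fun j _ => ?_
    rw [hPlast, Derivation.leibniz_pow, map_nsmul, smul_eq_mul, map_mul, map_pow, eval_X,
      Pi.zero_apply, zero_pow (by omega : d - 1 ≠ 0), zero_mul, smul_zero, mul_zero]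
  -- the derivatives of the others
  have hder : ∀ h : Fin (m + 1) → ℂ, h (Fin.last m) = 0 → ∀ i : Fin m,
      ∑ j, h j * eval 0 (pderiv j (P i.castSucc)) =
        ∑ j : Fin m, qm d Φ v i j * h j.castSucc := by
    intro h hh i
    have h1 : ∑ j, h j * eval 0 (pderiv j (P i.castSucc)) =
        ∑ j, h j * eval 0 (pderiv j (hm d v (Φ i.castSucc))) -
          v i.castSucc * ∑ j, h j * eval 0 (pderiv j Q) := by
      rw [Finset.mul_sum, ← Finset.sum_sub_distrib]
      refine Finset.sum_congr rfl fun j _ => ?_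
      rw [hPne _ (Fin.castSucc_ne_last i), map_sub, map_sub, Derivation.leibniz, pderiv_C,
        smul_zero, add_zero, smul_eq_mul, map_mul, eval_C]
      ring
    rw [h1, hQ, hm_deriv v h hv hh (hdeg _), hm_deriv v h hv hh (hdeg _), Fin.sum_univ_castSucc,
      Fin.sum_univ_castSucc, hh, zero_mul, add_zero, zero_mul, add_zero, Finset.mul_sum,
      ← Finset.sum_sub_distrib]
    refine Finset.sum_congr rfl fun j _ => ?_
    rw [qm]
    ring
  have main : ∀ (g : MvPolynomial (Fin (m + 1)) ℂ),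
      (∀ᶠ n in atTop, eval (y n) g = 0) ∨ (∀ᶠ n in atTop, eval (y n) g ≠ 0) := by
    intro g
    have hreals : ∀ μ ∈ Submonoid.closure {x : ℂ | ∃ h ∈ Pool.Agent.Helper52.AT.Tan y, h ≠ 0 ∧
        ∀ i, ∑ j, h j * eval 0 (pderiv j (P i)) = x * eval 0 Q * h i}, μ.im = 0 ∧ 0 ≤ μ.re := by
      intro μ hμ
      induction hμ using Submonoid.closure_induction with
      | mem z hz =>
        obtain ⟨h, -, hh, hz⟩ := hz
        by_cases hl : h (Fin.last m) = 0
        · refine (hreal z (fun j => h j.castSucc) ?_ ?_).imp_right le_of_lt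
          · intro h0
            apply hh
            funext i
            refine Fin.lastCases ?_ (fun i => ?_) i
            · exact hl
            · exact congrFun h0 i
          · intro i
            rw [← hder h hl i, hz, hQ0]
            ring
        · have h1 := hz (Fin.last m)
          rw [hlastd, hQ0] at h1
          have h2 : z = 0 := by
            rcases mul_eq_zero.1 h1.symm with h3 | h3
            · exact (mul_eq_zero.1 h3).resolve_right hc
            · exact absurd h3 hl
          rw [h2]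
          exact ⟨Complex.zero_im, le_rfl⟩
      | one => exact ⟨Complex.one_im, zero_le_one⟩
      | mul z z' _ _ h1 h2 =>
        refine ⟨by rw [Complex.mul_im, h1.1, h2.1, mul_zero, zero_mul, add_zero], ?_⟩
        rw [Complex.mul_re, h1.1, h2.1, mul_zero, sub_zero]
        exact mul_nonneg h1.2 h2.2
    have haff := affine_main y ρ hρ0 hρ1 ?_ P Q (by rw [hQ0]; exact hc) ?_ ?_ (X (Fin.last m))
      (X (Fin.last m) ^ (d - 2)) Q ?_ (by rw [hQ0]; exact hc) ?_ ?_ (M := 1) le_rfl ?_ g 0
    · simpa only [one_mul, add_zero] using haff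
    · refine ⟨C₁, hx.mono fun n hn i => ?_⟩
      refine Fin.lastCases ?_ (fun i => ?_) i
      · rw [hylast]
        exact hn.2.1
      · rw [hyne _ _ (Fin.castSucc_ne_last i)]
        exact hn.2.2 _
    · intro i
      refine Fin.lastCases ?_ (fun i => ?_) i
      · rw [hPlast, map_pow, eval_X, Pi.zero_apply, zero_pow hd0]
      · rw [hPne _ (Fin.castSucc_ne_last i), map_sub, map_mul, eval_C, hQ0,
          hm_zero v hv (hdeg _), hF]
        ring
    · filter_upwards [hx1] with n hn i
      have h1 := hQx n hn.1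
      have h2 : eval (y n) Q = x (n + 1) (Fin.last m) / x n (Fin.last m) ^ d := by
        rw [eq_div_iff (pow_ne_zero _ hn.1)]
        exact h1
      refine Fin.lastCases ?_ (fun i => ?_) i
      · rw [hylast, h2, hPlast, map_pow, eval_X, hylast, inv_pow]
        have := hn.2
        field_simp
      · have h3 : eval (y n) (hm d v (Φ i.castSucc)) =
            x (n + 1) i.castSucc / x n (Fin.last m) ^ d := by
          rw [eq_div_iff (pow_ne_zero _ hn.1), hxs]
          exact eval_hm v (x n) (hdeg _) hn.1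
        rw [hyne _ _ (Fin.castSucc_ne_last i), hPne _ (Fin.castSucc_ne_last i), map_sub, map_mul,
          eval_C, h3, h2]
        have := hn.2
        field_simp
    · rw [eval_X, Pi.zero_apply]
    · filter_upwards [hx1] with n hn
      have h1 := hQx n hn.1
      have h2 : eval (y n) Q = x (n + 1) (Fin.last m) / x n (Fin.last m) ^ d := by
        rw [eq_div_iff (pow_ne_zero _ hn.1)]
        exact h1
      simp only [eval_X, map_pow]
      rw [hylast, hylast, ← pow_add, Nat.sub_add_cancel hd, h2, inv_pow]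
      have := hn.2
      field_simp
    · intro h _ h1 h2
      have hl : h (Fin.last m) = 0 := by
        rw [Finset.sum_eq_single (Fin.last m)] at h1
        · rwa [pderiv_X_self, map_one, mul_one] at h1
        · intro b _ hb
          rw [pderiv_X_of_ne (Ne.symm hb), map_zero, mul_zero]
        · intro h3
          exact absurd (Finset.mem_univ _) h3
      have h3 : (fun j : Fin m => h j.castSucc) = 0 := by
        refine hinj _ fun i => ?_
        rw [← hder h hl i]
        exact h2 _
      funext i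
      refine Fin.lastCases ?_ (fun i => ?_) i
      · exact hl
      · exact congrFun h3 i
    · intro μ hμ ν hν hnorm
      obtain ⟨h1, h1'⟩ := hreals μ hμ
      obtain ⟨h2, h2'⟩ := hreals ν hν
      have h3 : (μ.re : ℂ) = μ := Complex.ext rfl (by rw [Complex.ofReal_im, h1])
      have h4 : (ν.re : ℂ) = ν := Complex.ext rfl (by rw [Complex.ofReal_im, h2])
      rw [← h3, ← h4, Complex.norm_real, Complex.norm_real, Real.norm_eq_abs,
        Real.norm_eq_abs, abs_of_nonneg h1', abs_of_nonneg h2'] at hnorm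
      rw [← h3, ← h4, hnorm]
  -- finitely many polynomials suffice
  obtain ⟨B₀, hB₀, hB₀z⟩ : ∃ B₀ : Finset (MvPolynomial (Fin (m + 1)) ℂ), (∀ F ∈ B₀, F ∈ V) ∧
        ∀ v : Fin (m + 1) → ℂ, (∀ F ∈ B₀, eval v F = 0) → ∀ F ∈ V, eval v F = 0 := by
    obtain ⟨B₀, hB₀, hspan⟩ := (Submodule.fg_span_iff_fg_span_finset_subset V).mp
      (IsNoetherian.noetherian (Submodule.span (MvPolynomial (Fin (m + 1)) ℂ) V))
    refine ⟨B₀, fun F hF => hB₀ hF, fun v hv F hF => ?_⟩
    have h1 : F ∈ Submodule.span (MvPolynomial (Fin (m + 1)) ℂ)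
        (B₀ : Set (MvPolynomial (Fin (m + 1)) ℂ)) := by
      rw [← hspan]
      exact Submodule.subset_span hF
    refine Submodule.span_induction (p := fun F _ => eval v F = 0) ?_ ?_ ?_ ?_ h1
    · intro G hG
      exact hv G hG
    · simp
    · intro G H _ _ hG hH
      rw [map_add, hG, hH, add_zero]
    · intro a G _ hG
      rw [smul_eq_mul, map_mul, hG, mul_zero]
  have key : ∀ E : MvPolynomial (Fin (m + 1)) ℂ,
      (∀ᶠ n in atTop, eval (x n) E = 0) ∨ (∀ᶠ n in atTop, eval (x n) E ≠ 0) := by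
    intro E
    rcases main (hm E.totalDegree v E) with h | h
    · left
      filter_upwards [h, hx] with n h2 h3
      rw [← eval_hm v (x n) le_rfl h3.1]
      rw [show yc v (x n) = y n from rfl, h2, zero_mul]
    · right
      filter_upwards [h, hx] with n h2 h3
      rw [← eval_hm v (x n) le_rfl h3.1]
      exact mul_ne_zero h2 (pow_ne_zero _ h3.1)
  by_cases hall : ∀ E ∈ B₀, ∀ᶠ n in atTop, eval (x n) E = 0
  · right
    have h1 : ∀ᶠ n in atTop, ∀ E ∈ B₀, eval (x n) E = 0 := by
      rw [Filter.eventually_all_finset]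
      exact hall
    obtain ⟨n₀, hn₀⟩ := eventually_atTop.1 h1
    exact ⟨n₀, fun n hn => hB₀z _ (hn₀ n hn)⟩
  · left
    push Not at hall
    obtain ⟨E, hE, hne⟩ := hall
    have h1 : ∀ᶠ n in atTop, eval (x n) E ≠ 0 :=
      (key E).resolve_left (fun h => hne (h.mono fun n hn => not_not.2 hn))
    obtain ⟨n₀, hn₀⟩ := eventually_atTop.1 h1
    refine (Set.finite_lt_nat n₀).subset fun n hn => ?_
    by_contra hcon
    exact hn₀ n (not_lt.1 hcon) (hn E (hB₀ E hE))

end Pool.Agent.Helper26.PP
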