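import Pool.Agent.Helper26.PP.Defs

/-!
# The forms of degree `d` of a map in the cone
-/

set_option autoImplicit false

namespace Pool.Agent.Helper26.PP

open Finset MvPolynomial

variable {m d : ℕ}

/-- the forms of degree `d` -/
noncomputable def Fd (d : ℕ) (Φ : Fin (m + 1) → MvPolynomial (Fin (m + 1)) ℝ)
    (i : Fin (m + 1)) : MvPolynomial (Fin (m + 1)) ℝ := homogeneousComponent d (Φ i)

/-- the reference forms -/
noncomputable def R0 (m d : ℕ) (κ : ℝ) (i : Fin (m + 1)) : MvPolynomial (Fin (m + 1)) ℝ :=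
  if i = Fin.last m then ∑ j, monomial (Finsupp.single j d) 1
  else monomial (Finsupp.single i 1 + Finsupp.single (Fin.last m) (d - 1)) (((i : ℕ) + 1) * κ)

theorem coeff_R0 (hd : 1 ≤ d) (κ : ℝ) (i : Fin (m + 1)) (s : Fin (m + 1) →₀ ℕ) :
    coeff s (R0 m d κ i) = ref m d κ i s := by
  classical
  rw [R0, ref]
  by_cases hi : i = Fin.last m
  · rw [if_pos hi, if_pos hi, coeff_sum]
    simp only [coeff_monomial]
    by_cases h : ∃ j, s = Finsupp.single j d
    · obtain ⟨j, rfl⟩ := h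
      rw [if_pos ⟨j, rfl⟩, Finset.sum_eq_single j]
      · rw [if_pos rfl]
      · intro k _ hk
        rw [if_neg]
        intro h1
        exact hk (Finsupp.single_left_injective (by omega) h1)
      · intro h1
        exact absurd (mem_univ j) h1
    · rw [if_neg h]
      refine Finset.sum_eq_zero fun j _ => ?_
      rw [if_neg]
      rintro rfl
      exact h ⟨j, rfl⟩
  · rw [if_neg hi, if_neg hi, coeff_monomial]
    by_cases h : s = Finsupp.single i 1 + Finsupp.single (Fin.last m) (d - 1)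
    · rw [if_pos h, if_pos h.symm]
    · rw [if_neg h, if_neg (Ne.symm h)]

theorem ref_eq_zero (hd : 1 ≤ d) (κ : ℝ) (i : Fin (m + 1)) {s : Fin (m + 1) →₀ ℕ}
    (hs : s.degree ≠ d) : ref m d κ i s = 0 := by
  rw [ref]
  split_ifs with h1 h2 h3
  · obtain ⟨j, rfl⟩ := h2
    exact absurd (Finsupp.degree_single j d) hs
  · rfl
  · refine absurd ?_ hs
    rw [h3, map_add, Finsupp.degree_single, Finsupp.degree_single]
    omega
  · rfl

/-- the difference -/
noncomputable def Er (d : ℕ) (κ lam : ℝ) (Φ : Fin (m + 1) → MvPolynomial (Fin (m + 1)) ℝ)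
    (i : Fin (m + 1)) : MvPolynomial (Fin (m + 1)) ℝ := Fd d Φ i - C lam * R0 m d κ i

theorem Fd_eq (κ lam : ℝ) (Φ : Fin (m + 1) → MvPolynomial (Fin (m + 1)) ℝ) (i : Fin (m + 1)) :
    Fd d Φ i = C lam * R0 m d κ i + Er d κ lam Φ i := by
  rw [Er]
  ring

theorem coeff_Er (hd : 1 ≤ d) {κ ε lam : ℝ} (hlam : 0 ≤ lam) (hε : 0 ≤ ε)
    {Φ : Fin (m + 1) → MvPolynomial (Fin (m + 1)) ℝ} (hC : Cone m d κ ε lam Φ)
    (i : Fin (m + 1)) (s : Fin (m + 1) →₀ ℕ) : |coeff s (Er d κ lam Φ i)| ≤ ε * lam := by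
  rw [Er, coeff_sub, coeff_C_mul, coeff_R0 hd, Fd, coeff_homogeneousComponent]
  by_cases hs : s.degree = d
  · rw [if_pos hs]
    exact hC i s hs
  · rw [if_neg hs, ref_eq_zero hd κ i hs, mul_zero, sub_zero, abs_zero]
    exact mul_nonneg hε hlam

theorem Er_hom (hd : 1 ≤ d) {κ lam : ℝ}
    {Φ : Fin (m + 1) → MvPolynomial (Fin (m + 1)) ℝ} (i : Fin (m + 1)) :
    (Er d κ lam Φ i).IsHomogeneous d := by
  intro s hs
  rw [show (Finsupp.weight 1) s = s.degree from
    (DFunLike.congr_fun (Finsupp.degree_eq_weight_one (R := ℕ)) s).symm]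
  by_contra h
  refine hs ?_
  rw [Er, coeff_sub, coeff_C_mul, coeff_R0 hd, Fd, coeff_homogeneousComponent, if_neg h,
    ref_eq_zero hd κ i h, mul_zero, sub_zero]

theorem eval_R0_last (hd : 1 ≤ d) (κ : ℝ) (x : Fin (m + 1) → ℝ) :
    eval x (R0 m d κ (Fin.last m)) = ∑ j, x j ^ d := by
  rw [R0, if_pos rfl, map_sum]
  refine sum_congr rfl fun j _ => ?_
  rw [eval_monomial, one_mul, Finsupp.prod_single_index]
  exact pow_zero _

theorem eval_R0_ne (κ : ℝ) (x : Fin (m + 1) → ℝ) {i : Fin (m + 1)} (hi : i ≠ Fin.last m) :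
    eval x (R0 m d κ i) = ((i : ℕ) + 1) * κ * (x i * x (Fin.last m) ^ (d - 1)) := by
  rw [R0, if_neg hi, eval_monomial, Finsupp.prod_add_index', Finsupp.prod_single_index,
    Finsupp.prod_single_index, pow_one]
  · exact pow_zero _
  · exact pow_zero _
  · exact fun _ => pow_zero _
  · exact fun _ _ _ => pow_add _ _ _

/-! ### The constants -/

/-- the error `ε M` -/
noncomputable def er (m d : ℕ) : ℝ := eps m d * Mn m d

theorem er_eq (hd : 1 ≤ d) : er m d * (200 * (m + 1) * d) = kap m d := by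
  have h1 : (0 : ℝ) < d := by exact_mod_cast hd
  have h2 : (0 : ℝ) < Mn m d := lt_of_lt_of_le one_pos one_le_Mn
  rw [er, eps]
  field_simp

theorem kap_eq (hd : 1 ≤ d) : kap m d * (64 * (m + 1) ^ 2 * d) = 1 := by
  have h1 : (0 : ℝ) < d := by exact_mod_cast hd
  rw [kap]
  field_simp

theorem er_pos (hd : 1 ≤ d) : 0 < er m d :=
  mul_pos (eps_pos hd) (lt_of_lt_of_le one_pos one_le_Mn)

/-- all the inequalities for the constants -/
theorem consts (hd : 1 ≤ d) : 0 < er m d ∧ 0 < kap m d ∧ er m d * d ≤ kap m d / 200 ∧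
    er m d ≤ kap m d / 200 ∧ (m + 1) ^ 2 * d * kap m d = 1 / 64 ∧
    (m + 1) * d * kap m d ≤ 1 / 64 ∧ (m + 1) * kap m d ≤ 1 / 64 ∧ kap m d ≤ 1 / 64 ∧
    (m + 1) * (er m d * d) = kap m d / 200 := by
  have h1 : (1 : ℝ) ≤ d := by exact_mod_cast hd
  have h2 : (0 : ℝ) ≤ m := Nat.cast_nonneg _
  have hk := kap_pos (m := m) hd
  have he := er_pos (m := m) hd
  have e1 := er_eq (m := m) hd
  have e2 := kap_eq (m := m) hd
  have h9 : (m + 1) * (er m d * d) = kap m d / 200 := by linarith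
  have hed : 0 ≤ er m d * d := by positivity
  have h3 : er m d * d ≤ kap m d / 200 := by nlinarith
  have h4 : er m d ≤ kap m d / 200 := by nlinarith
  have h5 : ((m : ℝ) + 1) ^ 2 * d * kap m d = 1 / 64 := by linarith
  have h6 : ((m : ℝ) + 1) * d * kap m d ≤ 1 / 64 := by
    have h : 0 ≤ (m : ℝ) * (((m : ℝ) + 1) * d * kap m d) := by positivity
    nlinarith
  have h7 : ((m : ℝ) + 1) * kap m d ≤ 1 / 64 := by
    have h : 0 ≤ ((d : ℝ) - 1) * (((m : ℝ) + 1) * kap m d) :=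
      mul_nonneg (by linarith) (by positivity)
    nlinarith
  have h8 : kap m d ≤ 1 / 64 := by
    have h : 0 ≤ (m : ℝ) * kap m d := by positivity
    nlinarith
  exact ⟨he, hk, h3, h4, h5, h6, h7, h8, h9⟩

end Pool.Agent.Helper26.PP
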