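import Pool.Agent.Helper26.PP.Bounds

/-!
# The cone condition on the forms of degree `d`

Reference forms: `∑ x_j ^ d` for the last component and `(i + 1) κ x_i x_N ^ (d - 1)` for the other
ones.
-/

set_option autoImplicit false

namespace Pool.Agent.Helper26.PP

open Finset MvPolynomial

variable {m d : ℕ}

open Classical in
/-- the coefficients of the reference forms -/
noncomputable def ref (m d : ℕ) (κ : ℝ) (i : Fin (m + 1)) (s : Fin (m + 1) →₀ ℕ) : ℝ :=
  if i = Fin.last m then (if ∃ j, s = Finsupp.single j d then 1 else 0)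
  else (if s = Finsupp.single i 1 + Finsupp.single (Fin.last m) (d - 1) then ((i : ℕ) + 1) * κ
    else 0)

/-- The coefficients of degree `d` are close to `lam` times the ones of the reference forms. -/
def Cone (m d : ℕ) (κ ε lam : ℝ) (Φ : Fin (m + 1) → MvPolynomial (Fin (m + 1)) ℝ) : Prop :=
  ∀ (i : Fin (m + 1)) (s : Fin (m + 1) →₀ ℕ), s.degree = d →
    |coeff s (Φ i) - lam * ref m d κ i s| ≤ ε * lam

/-- the constant `κ` -/
noncomputable def kap (m d : ℕ) : ℝ := 1 / (64 * (m + 1) ^ 2 * d)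

/-- the constant `ε` -/
noncomputable def eps (m d : ℕ) : ℝ := kap m d / (200 * (m + 1) * Mn m d * d)

theorem kap_pos (hd : 1 ≤ d) : 0 < kap m d := by
  have h1 : (0 : ℝ) < d := by exact_mod_cast hd
  have h2 : (0 : ℝ) < (m : ℝ) + 1 := by positivity
  rw [kap]
  positivity

theorem eps_pos (hd : 1 ≤ d) : 0 < eps m d := by
  have h1 : (0 : ℝ) < d := by exact_mod_cast hd
  have h2 : (0 : ℝ) < Mn m d := lt_of_lt_of_le one_pos one_le_Mn
  have h3 := kap_pos (m := m) hd
  rw [eps]
  positivity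

theorem ref_nonneg (i : Fin (m + 1)) (s : Fin (m + 1) →₀ ℕ) : 0 ≤ ref m d (kap m d) i s := by
  rw [ref]
  have h : 0 ≤ kap m d := by
    rw [kap]
    positivity
  split_ifs
  · exact zero_le_one
  · exact le_rfl
  · positivity
  · exact le_rfl

theorem ref_le_one (hd : 1 ≤ d) (i : Fin (m + 1)) (s : Fin (m + 1) →₀ ℕ) :
    ref m d (kap m d) i s ≤ 1 := by
  have h1 : (1 : ℝ) ≤ d := by exact_mod_cast hd
  have h2 : ((i : ℕ) : ℝ) ≤ m := by exact_mod_cast Nat.le_of_lt_succ i.2
  have h3 : (0 : ℝ) ≤ m := Nat.cast_nonneg _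
  rw [ref]
  split_ifs
  · exact le_rfl
  · exact zero_le_one
  · rw [kap, mul_one_div, div_le_one (by positivity)]
    nlinarith [mul_nonneg h3 h3, mul_nonneg h3 (sub_nonneg.2 h1)]
  · exact zero_le_one

end Pool.Agent.Helper26.PP
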