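import Pool.Agent.Helper26.PP.Cone

/-!
# Estimates for the forms of degree `d` of a map in the cone
-/

set_option autoImplicit false

namespace Pool.Agent.Helper26.PP

open Finset MvPolynomial

variable {m d : ℕ} {lam : ℝ} {Φ : Fin (m + 1) → MvPolynomial (Fin (m + 1)) ℝ}

theorem eval_Fd (i : Fin (m + 1)) (x : Fin (m + 1) → ℝ) :
    eval x (Fd d Φ i) = lam * eval x (R0 m d (kap m d) i) +
      eval x (Er d (kap m d) lam Φ i) := by
  rw [Fd_eq (kap m d) lam, map_add, map_mul, eval_C]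

theorem Er_le (hd : 1 ≤ d) (hlam : 0 ≤ lam) (hC : Cone m d (kap m d) (eps m d) lam Φ)
    (i : Fin (m + 1)) {x : Fin (m + 1) → ℝ} {T : ℝ} (hx : ∀ i, |x i| ≤ T) :
    |eval x (Er d (kap m d) lam Φ i)| ≤ lam * er m d * T ^ d := by
  have h := hom_le (Er_hom hd i) (coeff_Er hd hlam (eps_pos hd).le hC i) hx
  refine h.trans (le_of_eq ?_)
  rw [er]
  ring

theorem Er_sub_le (hd : 1 ≤ d) (hlam : 0 ≤ lam) (hC : Cone m d (kap m d) (eps m d) lam Φ)
    (i : Fin (m + 1)) {x y : Fin (m + 1) → ℝ} {δ : ℝ} (hx : ∀ i, |x i| ≤ 1)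
    (hy : ∀ i, |y i| ≤ 1) (h : ∀ i, |x i - y i| ≤ δ) :
    |eval x (Er d (kap m d) lam Φ i) - eval y (Er d (kap m d) lam Φ i)| ≤
      lam * (er m d * d) * δ := by
  have h := eval_sub_le (Er_hom hd i).totalDegree_le (coeff_Er hd hlam (eps_pos hd).le hC i)
    hx hy h
  refine h.trans (le_of_eq ?_)
  rw [er]
  ring

theorem index_le {i : Fin (m + 1)} : ((i : ℕ) : ℝ) + 1 ≤ m + 1 := by
  have h2 : ((i : ℕ) : ℝ) ≤ m := by exact_mod_cast Nat.le_of_lt_succ i.2
  linarith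

theorem last_ge (hd : 1 ≤ d) (he : Even d) (hlam : 0 < lam)
    (hC : Cone m d (kap m d) (eps m d) lam Φ) {x : Fin (m + 1) → ℝ} {T : ℝ}
    (hx : ∀ i, |x i| ≤ T) (hT : ∃ i, |x i| = T) :
    lam * (1 - er m d) * T ^ d ≤ eval x (Fd d Φ (Fin.last m)) := by
  obtain ⟨j, hj⟩ := hT
  rw [eval_Fd (lam := lam), eval_R0_last hd]
  have h1 := Er_le hd hlam.le hC (Fin.last m) hx
  have h2 : T ^ d ≤ ∑ i, x i ^ d := by
    have h3 : T ^ d = x j ^ d := by rw [← hj, he.pow_abs]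
    rw [h3]
    exact Finset.single_le_sum (f := fun i => x i ^ d) (fun i _ => he.pow_nonneg _) (mem_univ j)
  have h4 := mul_le_mul_of_nonneg_left h2 hlam.le
  have h5 := (abs_le.1 h1).1
  nlinarith

theorem ne_le (hd : 1 ≤ d) (hlam : 0 < lam)
    (hC : Cone m d (kap m d) (eps m d) lam Φ) {i : Fin (m + 1)} (hi : i ≠ Fin.last m)
    {x : Fin (m + 1) → ℝ} {T : ℝ} (hx : ∀ i, |x i| ≤ T) :
    |eval x (Fd d Φ i)| ≤ lam * ((m + 1) * kap m d + er m d) * T ^ d := by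
  have hT : 0 ≤ T := (abs_nonneg _).trans (hx 0)
  rw [eval_Fd (lam := lam), eval_R0_ne _ _ hi]
  have h1 := Er_le hd hlam.le hC i hx
  have hk := kap_pos (m := m) hd
  have h2 : |lam * ((((i : ℕ) : ℝ) + 1) * kap m d * (x i * x (Fin.last m) ^ (d - 1)))| ≤
      lam * ((m + 1) * kap m d) * T ^ d := by
    rw [abs_mul, abs_mul, abs_mul, abs_mul, abs_of_pos hlam, abs_of_pos hk,
      abs_of_nonneg (by positivity : (0 : ℝ) ≤ ((i : ℕ) : ℝ) + 1), abs_pow]
    have h3 : |x i| * |x (Fin.last m)| ^ (d - 1) ≤ T ^ d := by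
      obtain ⟨e, rfl⟩ : ∃ e, d = e + 1 := ⟨d - 1, by omega⟩
      rw [Nat.add_sub_cancel, pow_succ']
      exact mul_le_mul (hx i) (pow_le_pow_left₀ (abs_nonneg _) (hx _) _)
        (pow_nonneg (abs_nonneg _) _) hT
    rw [mul_assoc lam]
    refine mul_le_mul_of_nonneg_left ?_ hlam.le
    exact mul_le_mul (mul_le_mul_of_nonneg_right index_le hk.le) h3
      (mul_nonneg (abs_nonneg _) (pow_nonneg (abs_nonneg _) _)) (by positivity)
  refine (abs_add_le _ _).trans ?_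
  nlinarith

theorem ne_sub_le (hd : 1 ≤ d) (hlam : 0 < lam)
    (hC : Cone m d (kap m d) (eps m d) lam Φ) {i : Fin (m + 1)} (hi : i ≠ Fin.last m)
    {x y : Fin (m + 1) → ℝ} {δ : ℝ} (hx : ∀ i, |x i| ≤ 1)
    (hy : ∀ i, |y i| ≤ 1) (h : ∀ i, |x i - y i| ≤ δ) (hx1 : x (Fin.last m) = 1)
    (hy1 : y (Fin.last m) = 1) :
    |eval x (Fd d Φ i) - eval y (Fd d Φ i)| ≤ lam * ((m + 1) * kap m d + er m d * d) * δ := by
  rw [eval_Fd (lam := lam), eval_Fd (lam := lam), eval_R0_ne _ _ hi, eval_R0_ne _ _ hi, hx1, hy1,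
    one_pow, mul_one, mul_one]
  have h1 := Er_sub_le hd hlam.le hC i hx hy h
  have hk := kap_pos (m := m) hd
  have h2 : |lam * ((((i : ℕ) : ℝ) + 1) * kap m d) * (x i - y i)| ≤
      lam * ((m + 1) * kap m d) * δ := by
    rw [abs_mul, abs_of_nonneg (by positivity : (0 : ℝ) ≤ lam * ((((i : ℕ) : ℝ) + 1) * kap m d))]
    refine mul_le_mul ?_ (h i) (abs_nonneg _) (by positivity)
    exact mul_le_mul_of_nonneg_left (mul_le_mul_of_nonneg_right index_le hk.le) hlam.le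
  have h3 : lam * ((((i : ℕ) : ℝ) + 1) * kap m d * x i) + eval x (Er d (kap m d) lam Φ i) -
      (lam * ((((i : ℕ) : ℝ) + 1) * kap m d * y i) + eval y (Er d (kap m d) lam Φ i)) =
      lam * ((((i : ℕ) : ℝ) + 1) * kap m d) * (x i - y i) +
        (eval x (Er d (kap m d) lam Φ i) - eval y (Er d (kap m d) lam Φ i)) := by ring
  rw [h3]
  refine (abs_add_le _ _).trans ?_
  nlinarith

theorem last_sub_le (hd : 1 ≤ d) (hlam : 0 < lam)
    (hC : Cone m d (kap m d) (eps m d) lam Φ)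
    {x y : Fin (m + 1) → ℝ} {δ : ℝ} (hx : ∀ i, |x i| ≤ 1)
    (hy : ∀ i, |y i| ≤ 1) (h : ∀ i, |x i - y i| ≤ δ) :
    |eval x (Fd d Φ (Fin.last m)) - eval y (Fd d Φ (Fin.last m))| ≤
      lam * ((m + 1) * d + er m d * d) * δ := by
  have hδ : 0 ≤ δ := (abs_nonneg _).trans (h 0)
  rw [eval_Fd (lam := lam), eval_Fd (lam := lam), eval_R0_last hd, eval_R0_last hd]
  have h1 := Er_sub_le hd hlam.le hC (Fin.last m) hx hy h
  have h2 : |lam * (∑ j, x j ^ d - ∑ j, y j ^ d)| ≤ lam * ((m + 1) * d) * δ := by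
    rw [abs_mul, abs_of_pos hlam, ← sum_sub_distrib, mul_assoc lam]
    refine mul_le_mul_of_nonneg_left ?_ hlam.le
    refine (abs_sum_le_sum_abs _ _).trans ?_
    have h3 : ∀ j ∈ (univ : Finset (Fin (m + 1))), |x j ^ d - y j ^ d| ≤ d * δ := fun j _ =>
      (pow_sub_le (hx j) (hy j) d).trans (mul_le_mul_of_nonneg_left (h j) (Nat.cast_nonneg _))
    refine (sum_le_sum h3).trans (le_of_eq ?_)
    rw [sum_const, card_univ, Fintype.card_fin, nsmul_eq_mul]
    push_cast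
    ring
  have h3 : lam * ∑ j, x j ^ d + eval x (Er d (kap m d) lam Φ (Fin.last m)) -
      (lam * ∑ j, y j ^ d + eval y (Er d (kap m d) lam Φ (Fin.last m))) =
      lam * (∑ j, x j ^ d - ∑ j, y j ^ d) +
        (eval x (Er d (kap m d) lam Φ (Fin.last m)) -
          eval y (Er d (kap m d) lam Φ (Fin.last m))) := by ring
  rw [h3]
  refine (abs_add_le _ _).trans ?_
  nlinarith

theorem consts2 (hd : 1 ≤ d) :
    ((m + 1) * kap m d + er m d) * ((m + 1) * d + er m d * d) ≤ 1 / 16 := by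
  obtain ⟨c1, c2, c3, c4, c5, c6, c7, c8, c9⟩ := consts (m := m) hd
  have hB2 : er m d * d ≤ 1 := by linarith
  have hd0 : (0 : ℝ) ≤ d := Nat.cast_nonneg _
  have hm0 : (0 : ℝ) ≤ m := Nat.cast_nonneg _
  have hA : (m + 1) * kap m d * ((m + 1) * d) = 1 / 64 := by linarith
  have hB : (m + 1) * kap m d * (er m d * d) ≤ (m + 1) * kap m d * 1 :=
    mul_le_mul_of_nonneg_left hB2 (by positivity)
  have hD : er m d * ((m + 1) * d) ≤ 1 / 64 := by linarith
  have hE : er m d * (er m d * d) ≤ er m d * 1 := mul_le_mul_of_nonneg_left hB2 c1.le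
  have h : ((m + 1) * kap m d + er m d) * ((m + 1) * d + er m d * d) =
      (m + 1) * kap m d * ((m + 1) * d) + (m + 1) * kap m d * (er m d * d) +
      er m d * ((m + 1) * d) + er m d * (er m d * d) := by ring
  rw [h]
  linarith

/-- the arithmetic of the contraction -/
theorem quot_sub_le {lam a b a' b' δ A B D : ℝ} (hlam : 0 < lam) (hδ : 0 ≤ δ) (hb : lam / 2 ≤ b)
    (hb' : lam / 2 ≤ b') (h1 : |a - a'| ≤ lam * A * δ) (h2 : |b - b'| ≤ lam * B * δ)
    (h3 : |a'| ≤ lam * D) (hA : A ≤ 1 / 16) (hDB : D * B ≤ 1 / 16) :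
    |a / b - a' / b'| ≤ δ / 2 := by
  have hb0 : 0 < b := by linarith
  have hb0' : 0 < b' := by linarith
  have h8 : a / b - a' / b' = (a - a') / b + a' * (b' - b) / (b * b') := by
    field_simp
    ring
  rw [h8]
  have h9 : |(a - a') / b| ≤ δ / 8 := by
    rw [abs_div, abs_of_pos hb0, div_le_iff₀ hb0]
    refine h1.trans ?_
    have h11 : lam * A * δ ≤ lam * (1 / 16) * δ :=
      mul_le_mul_of_nonneg_right (mul_le_mul_of_nonneg_left hA hlam.le) hδ
    have h12 : δ / 8 * (lam / 2) ≤ δ / 8 * b := mul_le_mul_of_nonneg_left hb (by linarith)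
    linarith
  have h10 : |a' * (b' - b) / (b * b')| ≤ δ / 4 := by
    rw [abs_div, abs_mul, abs_of_pos (mul_pos hb0 hb0'), div_le_iff₀ (mul_pos hb0 hb0')]
    have h11 : |a'| * |b' - b| ≤ lam * D * (lam * B * δ) := by
      rw [abs_sub_comm b' b]
      exact mul_le_mul h3 h2 (abs_nonneg _) ((abs_nonneg _).trans h3)
    have h13 : lam * D * (lam * B * δ) ≤ lam * lam * (1 / 16) * δ := by
      have h14 : lam * D * (lam * B * δ) = lam * lam * (D * B) * δ := by ring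
      rw [h14]
      exact mul_le_mul_of_nonneg_right (mul_le_mul_of_nonneg_left hDB (mul_self_nonneg lam)) hδ
    have h14 : (lam / 2) * (lam / 2) ≤ b * b' := mul_le_mul hb hb' (by linarith) hb0.le
    have h15 : δ / 4 * ((lam / 2) * (lam / 2)) ≤ δ / 4 * (b * b') :=
      mul_le_mul_of_nonneg_left h14 (by linarith)
    linarith
  refine (abs_add_le _ _).trans ?_
  linarith

theorem last_ge_half (hd : 1 ≤ d) (he : Even d) (hlam : 0 < lam)
    (hC : Cone m d (kap m d) (eps m d) lam Φ) {x : Fin (m + 1) → ℝ} {T : ℝ}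
    (hx : ∀ i, |x i| ≤ T) (hT : ∃ i, |x i| = T) :
    lam / 2 * T ^ d ≤ eval x (Fd d Φ (Fin.last m)) := by
  obtain ⟨c1, c2, c3, c4, c5, c6, c7, c8, c9⟩ := consts (m := m) hd
  have hT0 : 0 ≤ T := (abs_nonneg _).trans (hx 0)
  refine le_trans ?_ (last_ge hd he hlam hC hx hT)
  refine mul_le_mul_of_nonneg_right ?_ (pow_nonneg hT0 _)
  have : 1 / 2 ≤ 1 - er m d := by linarith
  nlinarith

/-- **Contraction** in the directions. -/
theorem contract (hd : 1 ≤ d) (he : Even d) (hlam : 0 < lam)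
    (hC : Cone m d (kap m d) (eps m d) lam Φ)
    {x y : Fin (m + 1) → ℝ} {δ : ℝ} (hx : ∀ i, |x i| ≤ 1)
    (hy : ∀ i, |y i| ≤ 1) (h : ∀ i, |x i - y i| ≤ δ) (hx1 : x (Fin.last m) = 1)
    (hy1 : y (Fin.last m) = 1) (i : Fin (m + 1)) :
    |eval x (Fd d Φ i) / eval x (Fd d Φ (Fin.last m)) -
      eval y (Fd d Φ i) / eval y (Fd d Φ (Fin.last m))| ≤ δ / 2 := by
  have hδ : 0 ≤ δ := (abs_nonneg _).trans (h 0)
  obtain ⟨c1, c2, c3, c4, c5, c6, c7, c8, c9⟩ := consts (m := m) hd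
  have h3 := last_ge_half hd he hlam hC hx ⟨Fin.last m, by rw [hx1, abs_one]⟩
  have h4 := last_ge_half hd he hlam hC hy ⟨Fin.last m, by rw [hy1, abs_one]⟩
  rw [one_pow, mul_one] at h3 h4
  by_cases hi : i = Fin.last m
  · have hx0 : 0 < eval x (Fd d Φ (Fin.last m)) := by linarith
    have hy0 : 0 < eval y (Fd d Φ (Fin.last m)) := by linarith
    rw [hi, div_self hx0.ne', div_self hy0.ne', sub_self, abs_zero]
    linarith
  have h7 := ne_le hd hlam hC hi hy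
  rw [one_pow, mul_one] at h7
  exact quot_sub_le hlam hδ h3 h4 (ne_sub_le hd hlam hC hi hx hy h hx1 hy1)
    (last_sub_le hd hlam hC hx hy h) h7 (by linarith) (consts2 hd)

end Pool.Agent.Helper26.PP
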