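import Pool.Agent.Helper26.PP.Main
import Pool.Agent.Helper26.PP.Descent

/-!
# Maps all of whose real orbits tend to infinity
-/

set_option autoImplicit false

namespace Pool.Agent.Helper26.PP

open Finset MvPolynomial
open Pool.Agent.Helper86.MQ (pm)

variable {m d : ℕ} {lam : ℝ} {Φ : Fin (m + 1) → MvPolynomial (Fin (m + 1)) ℝ}

open Classical in
/-- the coefficients of the reference map -/
noncomputable def refF (m d : ℕ) (i : Fin (m + 1)) (s : Fin (m + 1) →₀ ℕ) : ℝ :=
  ref m d (kap m d) i s + if i = Fin.last m ∧ s = 0 then 1 else 0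

/-- All coefficients are close to `lam` times the ones of the reference map. -/
def ConeF (m d : ℕ) (lam : ℝ) (Φ : Fin (m + 1) → MvPolynomial (Fin (m + 1)) ℝ) : Prop :=
  ∀ (i : Fin (m + 1)) (s : Fin (m + 1) →₀ ℕ), s.degree ≤ d →
    |coeff s (Φ i) - lam * refF m d i s| ≤ eps m d * lam

theorem refF_zero (hd : 1 ≤ d) (i : Fin (m + 1)) :
    refF m d i 0 = if i = Fin.last m then 1 else 0 := by
  classical
  rw [refF, ref_eq_zero hd _ _ (by rw [map_zero]; omega), zero_add]
  by_cases hi : i = Fin.last m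
  · rw [if_pos ⟨hi, rfl⟩, if_pos hi]
  · rw [if_neg (fun h => hi h.1), if_neg hi]

theorem refF_of_ne {s : Fin (m + 1) →₀ ℕ} (hs : s ≠ 0) (i : Fin (m + 1)) :
    refF m d i s = ref m d (kap m d) i s := by
  classical
  rw [refF, if_neg (fun h => hs h.2), add_zero]

theorem refF_nonneg (i : Fin (m + 1)) (s : Fin (m + 1) →₀ ℕ) : 0 ≤ refF m d i s := by
  classical
  rw [refF]
  have h := ref_nonneg (m := m) (d := d) i s
  split_ifs <;> linarith

theorem refF_le_one (hd : 1 ≤ d) (i : Fin (m + 1)) (s : Fin (m + 1) →₀ ℕ) :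
    refF m d i s ≤ 1 := by
  by_cases hs : s = 0
  · rw [hs, refF_zero hd]
    split_ifs
    · exact le_rfl
    · exact zero_le_one
  · rw [refF_of_ne hs]
    exact ref_le_one hd i s

theorem ConeF.cone (hd : 1 ≤ d) (h : ConeF m d lam Φ) : Cone m d (kap m d) (eps m d) lam Φ := by
  intro i s hs
  have h1 := h i s hs.le
  rwa [refF_of_ne (by rintro rfl; rw [map_zero] at hs; omega)] at h1

theorem Mn_mono {e : ℕ} (h : e ≤ d) : Mn m e ≤ Mn m d := by
  rw [Mn, Mn]
  refine Nat.cast_le.2 (card_le_card fun s hs => ?_)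
  rw [mem_expo] at hs ⊢
  exact hs.trans h

theorem eps_mul_le (hd : 1 ≤ d) : eps m d * Mn m (d - 1) ≤ 1 / 4 := by
  have h1 : eps m d * Mn m (d - 1) ≤ eps m d * Mn m d :=
    mul_le_mul_of_nonneg_left (Mn_mono (by omega)) (eps_pos hd).le
  refine h1.trans ?_
  obtain ⟨c1, c2, c3, c4, c5, c6, c7, c8, c9⟩ := consts (m := m) hd
  have h2 : eps m d * Mn m d = er m d := by rw [er]
  rw [h2]
  linarith

theorem ConeF.coeff_le (hd : 1 ≤ d) (hlam : 0 < lam) (h : ConeF m d lam Φ)
    (deg : ∀ i, (Φ i).totalDegree ≤ d) (i : Fin (m + 1)) (s : Fin (m + 1) →₀ ℕ) :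
    |coeff s (Φ i)| ≤ 2 * lam := by
  by_cases hs : s.degree ≤ d
  · have h1 := h i s hs
    have h2 : eps m d ≤ 1 := by
      have h3 := eps_mul_le (m := m) hd
      have h4 := eps_pos (m := m) hd
      nlinarith [one_le_Mn (m := m) (d := d - 1)]
    have h5 : |lam * refF m d i s| ≤ lam := by
      rw [abs_of_nonneg (mul_nonneg hlam.le (refF_nonneg _ _))]
      exact mul_le_of_le_one_right hlam.le (refF_le_one hd _ _)
    have h6 : coeff s (Φ i) = (coeff s (Φ i) - lam * refF m d i s) + lam * refF m d i s := by ring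
    rw [h6]
    refine (abs_add_le _ _).trans ?_
    nlinarith
  · rw [coeff_eq_zero_of_totalDegree_lt]
    · rw [abs_zero]
      linarith
    · refine lt_of_le_of_lt (deg i) ?_
      rw [not_le] at hs
      exact hs

/-- **The first step**: all real points are mapped to large points. -/
theorem first_step (hd : 2 ≤ d) (he : Even d) (hlam : 0 < lam) (h : ConeF m d lam Φ)
    (deg : ∀ i, (Φ i).totalDegree ≤ d) (x : Fin (m + 1) → ℝ) :
    lam / 4 ≤ pm Φ x (Fin.last m) := by
  classical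
  have hd1 : 1 ≤ d := by omega
  obtain ⟨j, hj⟩ := Finite.exists_max (fun j => |x j|)
  set T := |x j| with hT
  have hT0 : 0 ≤ T := abs_nonneg _
  have hN := last_ge_half hd1 he hlam (h.cone hd1) hj ⟨j, rfl⟩
  set L : MvPolynomial (Fin (m + 1)) ℝ :=
    Φ (Fin.last m) - Fd d Φ (Fin.last m) - C lam with hL
  have hLc : ∀ s : Fin (m + 1) →₀ ℕ, s.degree < d → |coeff s L| ≤ eps m d * lam := by
    intro s hs
    rw [hL, coeff_sub, coeff_sub, Fd, coeff_homogeneousComponent, if_neg hs.ne, sub_zero, coeff_C]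
    have h1 := h (Fin.last m) s hs.le
    by_cases h0 : s = 0
    · rw [h0, refF_zero hd1, if_pos rfl, mul_one] at h1
      rw [h0, if_pos rfl]
      exact h1
    · rw [refF_of_ne h0, ref_eq_zero hd1 _ _ hs.ne, mul_zero] at h1
      rw [if_neg (fun h => h0 h.symm)]
      exact h1
  have hLd : ∀ s : Fin (m + 1) →₀ ℕ, ¬ s.degree < d → coeff s L = 0 := by
    intro s hs
    have hs0 : ¬ (0 = s) := by
      rintro rfl
      rw [map_zero] at hs
      omega
    rw [hL, coeff_sub, coeff_sub, Fd, coeff_homogeneousComponent, coeff_C, if_neg hs0, sub_zero]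
    split_ifs with h1
    · exact sub_self _
    · rw [sub_zero, coeff_eq_zero_of_totalDegree_lt]
      refine lt_of_le_of_lt (deg _) ?_
      have : d < s.degree := lt_of_le_of_ne (not_lt.1 hs) (Ne.symm h1)
      exact this
  have hLdeg : L.totalDegree ≤ d - 1 := by
    refine Finset.sup_le fun s hs => ?_
    have h1 : coeff s L ≠ 0 := mem_support_iff.1 hs
    have h2 : s.degree < d := by
      by_contra h3
      exact h1 (hLd s h3)
    exact (show s.degree ≤ d - 1 by omega)
  have hLb : ∀ s, |coeff s L| ≤ eps m d * lam := by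
    intro s
    by_cases hs : s.degree < d
    · exact hLc s hs
    · rw [hLd s hs, abs_zero]
      exact mul_nonneg (eps_pos hd1).le hlam.le
  have heq : pm Φ x (Fin.last m) = eval x (Fd d Φ (Fin.last m)) + lam + eval x L := by
    rw [hL, pm, map_sub, map_sub, eval_C]
    ring
  have he4 := eps_mul_le (m := m) hd1
  rw [heq]
  rcases le_total T 1 with hT1 | hT1
  · have h1 := eval_le hLdeg hLb le_rfl (fun i => (hj i).trans hT1)
    rw [one_pow, mul_one] at h1
    have h2 := (abs_le.1 h1).1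
    have h3 : 0 ≤ lam / 2 * T ^ d := by positivity
    nlinarith
  · have h1 := eval_le hLdeg hLb hT1 hj
    have h2 := (abs_le.1 h1).1
    have h3 : T ^ (d - 1) ≤ T ^ d := pow_le_pow_right₀ hT1 (by omega)
    have h4 : 0 ≤ T ^ (d - 1) := pow_nonneg hT0 _
    have h5 : eps m d * lam * Mn m (d - 1) * T ^ (d - 1) ≤ lam / 4 * T ^ d := by
      have h6 : eps m d * lam * Mn m (d - 1) = lam * (eps m d * Mn m (d - 1)) := by ring
      rw [h6]
      have h7 : lam * (eps m d * Mn m (d - 1)) ≤ lam * (1 / 4) :=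
        mul_le_mul_of_nonneg_left he4 hlam.le
      calc lam * (eps m d * Mn m (d - 1)) * T ^ (d - 1) ≤ lam * (1 / 4) * T ^ (d - 1) :=
            mul_le_mul_of_nonneg_right h7 h4
        _ ≤ lam * (1 / 4) * T ^ d := mul_le_mul_of_nonneg_left h3 (by positivity)
        _ = lam / 4 * T ^ d := by ring
    have h8 : 0 ≤ lam / 4 * T ^ d := by positivity
    linarith

/-- the bound for `lam` -/
noncomputable def lam0 (m d : ℕ) : ℝ := 4 * (18 + 32 * Mn m (d - 1))

/-- **All real orbits tend to a good point at infinity.** -/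
theorem real_all (hd : 2 ≤ d) (he : Even d) (deg : ∀ i, (Φ i).totalDegree ≤ d)
    (hlam : lam0 m d ≤ lam) (h : ConeF m d lam Φ) (x : Fin (m + 1) → ℝ) :
      ∃ (v : Fin (m + 1) → ℝ) (A : ℝ) (n₀ : ℕ), v (Fin.last m) = 1 ∧ 0 ≤ A ∧
        (∀ n, ((pm Φ)^[n₀ + n] x) (Fin.last m) ≠ 0) ∧
        (∀ n i, |((pm Φ)^[n₀ + n] x) i / ((pm Φ)^[n₀ + n] x) (Fin.last m) - v i| ≤
          A * (1 / 2) ^ n) ∧
        (∀ n, |1 / ((pm Φ)^[n₀ + n] x) (Fin.last m)| ≤ (1 / 2) ^ n) ∧
        (∀ i, eval v (Fd d Φ i) = eval v (Fd d Φ (Fin.last m)) * v i) ∧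
        eval v (Fd d Φ (Fin.last m)) ≠ 0 ∧
        (∀ (h : Fin (m + 1) → ℂ) (β : ℂ), (∀ i, ∑ j, h j * (Jd d Φ v i j : ℂ) = β * v i) →
          ∃ γ : ℂ, ∀ i, h i = γ * v i) ∧
        ∀ (h : Fin (m + 1) → ℂ) (z β : ℂ), (¬ ∃ γ : ℂ, ∀ i, h i = γ * v i) →
          (∀ i, ∑ j, h j * (Jd d Φ v i j : ℂ) -
            (eval v (Fd d Φ (Fin.last m)) : ℝ) * z * h i = β * v i) → z.im = 0 ∧ 0 < z.re := by
  have hd1 : 1 ≤ d := by omega
  have hMn := one_le_Mn (m := m) (d := d - 1)
  rw [lam0] at hlam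
  have hl1 : 1 ≤ lam := by linarith
  have hl0 : 0 < lam := by linarith
  have hb : (0 : ℝ) ≤ 2 * lam * Mn m (d - 1) := by positivity
  rcases real_main_of hd he hl0 (h.cone hd1) hb
    (lower_of deg (by linarith) (h.coeff_le hd1 hl0 deg)) x with h1 | h1
  · exfalso
    have h2 := h1 1 (Fin.last m)
    rw [Function.iterate_one] at h2
    have h3 := first_step hd he hl0 h deg x
    have h4 : 16 * (2 * lam * Mn m (d - 1)) / lam = 32 * Mn m (d - 1) := by
      field_simp
      ring
    have h5 : 16 / lam ≤ 16 := by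
      rw [div_le_iff₀ hl0]
      linarith
    rw [h4] at h2
    have h6 := le_abs_self (pm Φ x (Fin.last m))
    linarith
  · exact h1

/-- integral maps whose coefficients are close to the ones of a large multiple of the reference map:
all points over fields with a real embedding -/
theorem full_aps (hd : 2 ≤ d) (he : Even d) (Φ : Fin (m + 1) → MvPolynomial (Fin (m + 1)) ℤ)
    (deg : ∀ i, (Φ i).totalDegree ≤ d) (hlam : lam0 m d ≤ lam)
    (hC : ConeF m d lam fun i => map (Int.castRingHom ℝ) (Φ i))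
    (α : Fin (m + 1) → ℂ) (K : Subfield ℂ) (hK : ∀ i, α i ∈ K) (σ : K →+* ℝ)
    (V : Set (MvPolynomial (Fin (m + 1)) ℂ)) :
    {n : ℕ | ∀ G ∈ V, eval ((pm (fun i => map (Int.castRingHom ℂ) (Φ i)))^[n] α) G = 0}.Finite ∨
      ∃ n₁ : ℕ, ∀ n ≥ n₁, ∀ G ∈ V,
        eval ((pm (fun i => map (Int.castRingHom ℂ) (Φ i)))^[n] α) G = 0 := by
  set a : Fin (m + 1) → K := fun i => ⟨α i, hK i⟩ with ha
  set O : ℕ → Fin (m + 1) → K := fun n => (pm (fun i => map (Int.castRingHom K) (Φ i)))^[n] a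
    with hO
  obtain ⟨W, hW⟩ := exists_descent (m := m) (K := K) V
  have hset : ∀ n : ℕ, (∀ G ∈ V, eval ((pm (fun i => map (Int.castRingHom ℂ) (Φ i)))^[n] α) G = 0) ↔
      ∀ H ∈ W, eval (O n) H = 0 := by
    intro n
    rw [← hW]
    have h1 := iter_hom (algebraMap K ℂ) (fun i => map (Int.castRingHom K) (Φ i)) a n
    have h2 : (fun i => map (algebraMap K ℂ) (map (Int.castRingHom K) (Φ i))) =
        fun i => map (Int.castRingHom ℂ) (Φ i) := by
      funext i
      rw [MvPolynomial.map_map,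
        RingHom.ext_int ((algebraMap K ℂ).comp (Int.castRingHom K)) (Int.castRingHom ℂ)]
    rw [h2] at h1
    have h3 : (fun i => algebraMap K ℂ (a i)) = α := rfl
    rw [h3] at h1
    rw [h1]
  have degR : ∀ i, (map (Int.castRingHom ℝ) (Φ i)).totalDegree ≤ d := fun i =>
    (totalDegree_map_le' _ _).trans (deg i)
  have horb : ∀ n, (fun i => Complex.ofRealHom (σ (O n i))) =
      (pm (toCx fun i => map (Int.castRingHom ℝ) (Φ i)))^[n] (fun i => ((σ (a i) : ℝ) : ℂ)) := by
    intro n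
    have h1 := iter_hom (Complex.ofRealHom.comp σ) (fun i => map (Int.castRingHom K) (Φ i)) a n
    have h2 : (fun i => map (Complex.ofRealHom.comp σ) (map (Int.castRingHom K) (Φ i))) =
        toCx fun i => map (Int.castRingHom ℝ) (Φ i) := by
      funext i
      rw [toCx, MvPolynomial.map_map, MvPolynomial.map_map,
        RingHom.ext_int ((Complex.ofRealHom.comp σ).comp (Int.castRingHom K))
          (Complex.ofRealHom.comp (Int.castRingHom ℝ))]
    rw [h2] at h1
    exact h1.symm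
  obtain ⟨v, A, n₀, hvl, hA, hne, hlim, hinv, hF, hc, hinj, hre⟩ :=
    real_all hd he degR hlam hC (fun i => σ (a i))
  have hUn := unbounded hd _ degR _ v A n₀ hvl hA hne hlim hinv hF hc hinj hre
    ((fun H => map (Complex.ofRealHom.comp σ) H) '' W)
  have hiff : ∀ n : ℕ, (∀ G ∈ V, eval ((pm (fun i => map (Int.castRingHom ℂ) (Φ i)))^[n] α) G = 0) ↔
      ∀ G ∈ (fun H => map (Complex.ofRealHom.comp σ) H) '' W,
        eval ((pm (toCx fun i => map (Int.castRingHom ℝ) (Φ i)))^[n]
          (fun i => ((σ (a i) : ℝ) : ℂ))) G = 0 := by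
    intro n
    rw [hset, Set.forall_mem_image, ← horb n]
    refine forall₂_congr fun H _ => ?_
    have h1 : eval (fun i => Complex.ofRealHom (σ (O n i))) (map (Complex.ofRealHom.comp σ) H) =
        Complex.ofRealHom.comp σ (eval (O n) H) := by
      rw [eval_map]
      exact (eval₂_comp_left (Complex.ofRealHom.comp σ) (RingHom.id K) (O n) H).symm
    rw [h1]
    exact (map_eq_zero _).symm
  simp only [hiff]
  exact hUn

end Pool.Agent.Helper26.PP
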