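import Pool.Agent.Helper26.PP.Real
import Pool.Agent.Helper26.PP.AffPos

/-!
# Positive proportion: the dynamical Mordell-Lang conjecture for the maps in the cone
-/

set_option autoImplicit false

namespace Pool.Agent.Helper26.PP

open Finset MvPolynomial Filter
open Pool.Agent.Helper86.MQ (pm)
open Pool.Agent.Helper52.PP (qm)

variable {m d : ℕ}

/-- the map over the complex numbers -/
noncomputable def toCx (Φ : Fin (m + 1) → MvPolynomial (Fin (m + 1)) ℝ) :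
    Fin (m + 1) → MvPolynomial (Fin (m + 1)) ℂ := fun i => map Complex.ofRealHom (Φ i)

theorem eval_ofReal (P : MvPolynomial (Fin (m + 1)) ℝ) (v : Fin (m + 1) → ℝ) :
    eval (fun i => (v i : ℂ)) (map Complex.ofRealHom P) = ((eval v P : ℝ) : ℂ) := by
  rw [eval_map]
  exact (eval₂_comp_left Complex.ofRealHom (RingHom.id ℝ) v P).symm

theorem iter_ofReal (Φ : Fin (m + 1) → MvPolynomial (Fin (m + 1)) ℝ) (x : Fin (m + 1) → ℝ)
    (n : ℕ) : (pm (toCx Φ))^[n] (fun i => (x i : ℂ)) = fun i => (((pm Φ)^[n] x i : ℝ) : ℂ) := by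
  induction n with
  | zero => rfl
  | succ n ih =>
    rw [Function.iterate_succ_apply', Function.iterate_succ_apply', ih]
    funext i
    rw [pm, toCx, eval_ofReal, pm]

theorem hom_map (P : MvPolynomial (Fin (m + 1)) ℝ) :
    homogeneousComponent d (map Complex.ofRealHom P) =
      map Complex.ofRealHom (homogeneousComponent d P) := by
  ext s
  rw [coeff_homogeneousComponent, coeff_map, coeff_map, coeff_homogeneousComponent]
  split_ifs
  · rfl
  · rw [map_zero]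

theorem totalDegree_map_le' {R S : Type*} [CommSemiring R] [CommSemiring S] (f : R →+* S)
    (P : MvPolynomial (Fin (m + 1)) R) : (map f P).totalDegree ≤ P.totalDegree :=
  Finset.sup_mono (support_map_subset _ _)

/-- An unbounded orbit of a real point. -/
theorem unbounded (hd : 2 ≤ d) (Φ : Fin (m + 1) → MvPolynomial (Fin (m + 1)) ℝ)
    (deg : ∀ i, (Φ i).totalDegree ≤ d) (x : Fin (m + 1) → ℝ) (v : Fin (m + 1) → ℝ) (A : ℝ)
    (n₀ : ℕ) (hvl : v (Fin.last m) = 1) (hA : 0 ≤ A)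
    (hne : ∀ n, ((pm Φ)^[n₀ + n] x) (Fin.last m) ≠ 0)
    (hlim : ∀ n i, |((pm Φ)^[n₀ + n] x) i / ((pm Φ)^[n₀ + n] x) (Fin.last m) - v i| ≤
      A * (1 / 2) ^ n)
    (hinv : ∀ n, |1 / ((pm Φ)^[n₀ + n] x) (Fin.last m)| ≤ (1 / 2) ^ n)
    (hF : ∀ i, eval v (Fd d Φ i) = eval v (Fd d Φ (Fin.last m)) * v i)
    (hc : eval v (Fd d Φ (Fin.last m)) ≠ 0)
    (hinj : ∀ (h : Fin (m + 1) → ℂ) (β : ℂ), (∀ i, ∑ j, h j * (Jd d Φ v i j : ℂ) = β * v i) →
      ∃ γ : ℂ, ∀ i, h i = γ * v i)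
    (hreal : ∀ (h : Fin (m + 1) → ℂ) (z β : ℂ), (¬ ∃ γ : ℂ, ∀ i, h i = γ * v i) →
      (∀ i, ∑ j, h j * (Jd d Φ v i j : ℂ) -
        (eval v (Fd d Φ (Fin.last m)) : ℝ) * z * h i = β * v i) → z.im = 0 ∧ 0 < z.re)
    (V : Set (MvPolynomial (Fin (m + 1)) ℂ)) :
    {n : ℕ | ∀ G ∈ V, eval ((pm (toCx Φ))^[n] (fun i => (x i : ℂ))) G = 0}.Finite ∨
      ∃ n₁ : ℕ, ∀ n ≥ n₁, ∀ G ∈ V, eval ((pm (toCx Φ))^[n] (fun i => (x i : ℂ))) G = 0 := by
  have hq : ∀ i j : Fin m, qm d (toCx Φ) (fun i => (v i : ℂ)) i j =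
      (Jd d Φ v i.castSucc j.castSucc : ℂ) - v i.castSucc * (Jd d Φ v (Fin.last m) j.castSucc : ℂ) := by
    intro i j
    rw [qm, toCx, toCx, hom_map, hom_map, pderiv_map, pderiv_map, eval_ofReal, eval_ofReal]
    rfl
  -- passage from `Fin m` to `Fin (m + 1)`
  have hsum : ∀ (g : Fin m → ℂ) (i : Fin (m + 1)),
      ∑ j, (Fin.snoc g 0 : Fin (m + 1) → ℂ) j * (Jd d Φ v i j : ℂ) =
        ∑ j : Fin m, g j * (Jd d Φ v i j.castSucc : ℂ) := by
    intro g i
    rw [Fin.sum_univ_castSucc]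
    simp only [Fin.snoc_castSucc, Fin.snoc_last, zero_mul, add_zero]
  have hgamma : ∀ (g : Fin m → ℂ),
      (∃ γ : ℂ, ∀ i, (Fin.snoc g 0 : Fin (m + 1) → ℂ) i = γ * v i) → g = 0 := by
    rintro g ⟨γ, hγ⟩
    have h1 := hγ (Fin.last m)
    rw [Fin.snoc_last, hvl, Complex.ofReal_one, mul_one] at h1
    funext j
    have h2 := hγ j.castSucc
    rw [Fin.snoc_castSucc, ← h1, zero_mul] at h2
    exact h2
  have hkey : ∀ (g : Fin m → ℂ) (i : Fin m),
      ∑ j, qm d (toCx Φ) (fun i => (v i : ℂ)) i j * g j =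
        ∑ j : Fin m, g j * (Jd d Φ v i.castSucc j.castSucc : ℂ) -
          (∑ j : Fin m, g j * (Jd d Φ v (Fin.last m) j.castSucc : ℂ)) * v i.castSucc := by
    intro g i
    rw [Finset.sum_mul, ← sum_sub_distrib]
    refine sum_congr rfl fun j _ => ?_
    rw [hq]
    ring
  refine affine_pos (Φ := toCx Φ) (v := fun i => (v i : ℂ)) hd (fun i => ?_) _ ?_
    (by norm_num : (0 : ℝ) < 1 / 2) (by norm_num) ?_
    (c := ((eval v (Fd d Φ (Fin.last m)) : ℝ) : ℂ)) ?_ (fun i => ?_) (fun g hg => ?_)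
    (fun z g hg0 hg => ?_) V
  · exact (totalDegree_map_le' _ _).trans (deg i)
  · show ((v (Fin.last m) : ℝ) : ℂ) = 1
    rw [hvl, Complex.ofReal_one]
  · refine ⟨(A + 1) * 2 ^ n₀, eventually_atTop.2 ⟨n₀, fun n hn => ?_⟩⟩
    obtain ⟨k, rfl⟩ := Nat.exists_eq_add_of_le hn
    rw [iter_ofReal]
    have hpow : (2 : ℝ) ^ n₀ * (1 / 2) ^ (n₀ + k) = (1 / 2) ^ k := by
      rw [pow_add, ← mul_assoc, ← mul_pow]
      norm_num
    have hk0 : (0 : ℝ) ≤ (1 / 2) ^ k := by positivity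
    refine ⟨Complex.ofReal_ne_zero.2 (hne k), ?_, fun i => ?_⟩
    · have h1 := hinv k
      rw [one_div] at h1
      have h2 : ‖((((pm Φ)^[n₀ + k] x (Fin.last m) : ℝ) : ℂ))⁻¹‖ =
          |((pm Φ)^[n₀ + k] x (Fin.last m))⁻¹| := by
        rw [← Complex.ofReal_inv, Complex.norm_real, Real.norm_eq_abs]
      rw [h2, mul_assoc, hpow]
      nlinarith
    · have h1 := hlim k i
      have h2 : ‖(((pm Φ)^[n₀ + k] x i : ℝ) : ℂ) / (((pm Φ)^[n₀ + k] x (Fin.last m) : ℝ) : ℂ) -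
          (v i : ℂ)‖ = |(pm Φ)^[n₀ + k] x i / (pm Φ)^[n₀ + k] x (Fin.last m) - v i| := by
        rw [← Complex.ofReal_div, ← Complex.ofReal_sub, Complex.norm_real, Real.norm_eq_abs]
      rw [h2, mul_assoc, hpow]
      nlinarith
  · exact_mod_cast hc
  · rw [toCx, hom_map, eval_ofReal]
    have h1 := hF i
    rw [Fd] at h1
    rw [h1]
    push_cast
    rfl
  · refine hgamma g (hinj _ (∑ j : Fin m, g j * (Jd d Φ v (Fin.last m) j.castSucc : ℂ)) fun i => ?_)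
    rw [hsum]
    refine Fin.lastCases ?_ (fun i => ?_) i
    · rw [hvl, Complex.ofReal_one, mul_one]
    · have h1 := hg i
      rw [hkey] at h1
      exact sub_eq_zero.1 h1
  · refine hreal (Fin.snoc g 0) z (∑ j : Fin m, g j * (Jd d Φ v (Fin.last m) j.castSucc : ℂ))
      (fun h => hg0 (hgamma g h)) fun i => ?_
    rw [hsum]
    refine Fin.lastCases ?_ (fun i => ?_) i
    · rw [hvl, Complex.ofReal_one, mul_one, Fin.snoc_last, mul_zero, sub_zero]
    · have h1 := hg i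
      rw [hkey] at h1
      rw [Fin.snoc_castSucc]
      linear_combination h1

end Pool.Agent.Helper26.PP
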