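import Pool.Agent.Helper26.PP.Orbit
import Pool.Agent.Helper26.PP.Mult

/-!
# Orbits of real points for maps in the cone
-/

set_option autoImplicit false

namespace Pool.Agent.Helper26.PP

open Finset MvPolynomial
open Pool.Agent.Helper86.MQ (pm)

variable {m d : ℕ} {lam : ℝ} {Φ : Fin (m + 1) → MvPolynomial (Fin (m + 1)) ℝ}

/-- **Main theorem on real points**, with explicit constants. -/
theorem real_main_of (hd : 2 ≤ d) (he : Even d) (hlam : 0 < lam)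
    (hC : Cone m d (kap m d) (eps m d) lam Φ) {β : ℝ} (hβ : 0 ≤ β)
    (hlow : ∀ (x : Fin (m + 1) → ℝ) (T : ℝ), 1 ≤ T → (∀ i, |x i| ≤ T) → ∀ i,
      |eval x (Φ i) - eval x (Fd d Φ i)| ≤ β * T ^ (d - 1)) (x : Fin (m + 1) → ℝ) :
    (∀ n i, |((pm Φ)^[n] x) i| ≤ 1 + 16 * β / lam + 16 / lam) ∨
      ∃ (v : Fin (m + 1) → ℝ) (A : ℝ) (n₀ : ℕ), v (Fin.last m) = 1 ∧ 0 ≤ A ∧
        (∀ n, ((pm Φ)^[n₀ + n] x) (Fin.last m) ≠ 0) ∧
        (∀ n i, |((pm Φ)^[n₀ + n] x) i / ((pm Φ)^[n₀ + n] x) (Fin.last m) - v i| ≤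
          A * (1 / 2) ^ n) ∧
        (∀ n, |1 / ((pm Φ)^[n₀ + n] x) (Fin.last m)| ≤ (1 / 2) ^ n) ∧
        (∀ i, eval v (Fd d Φ i) = eval v (Fd d Φ (Fin.last m)) * v i) ∧
        eval v (Fd d Φ (Fin.last m)) ≠ 0 ∧
        (∀ (h : Fin (m + 1) → ℂ) (β : ℂ), (∀ i, ∑ j, h j * (Jd d Φ v i j : ℂ) = β * v i) →
          ∃ γ : ℂ, ∀ i, h i = γ * v i) ∧
        ∀ (h : Fin (m + 1) → ℂ) (z β : ℂ), (¬ ∃ γ : ℂ, ∀ i, h i = γ * v i) →
          (∀ i, ∑ j, h j * (Jd d Φ v i j : ℂ) -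
            (eval v (Fd d Φ (Fin.last m)) : ℝ) * z * h i = β * v i) → z.im = 0 ∧ 0 < z.re := by
  have hstep := step_of hd he hlam hC hβ hlow
  have hM : 1 ≤ 1 + 16 * β / lam + 16 / lam := by
    have h1 : 0 ≤ 16 * β / lam := by positivity
    have h2 : 0 ≤ 16 / lam := by positivity
    linarith
  have hK : 0 ≤ 8 * β / lam := by positivity
  set M₀ := 1 + 16 * β / lam + 16 / lam with hM₀
  set K := 8 * β / lam with hKK
  by_cases hbd : ∀ n i, |((pm Φ)^[n] x) i| ≤ M₀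
  · exact Or.inl hbd
  right
  push Not at hbd
  obtain ⟨n₁, i₁, hi₁⟩ := hbd
  -- the first large point
  obtain ⟨j₁, hj₁⟩ := Finite.exists_max (fun j => |((pm Φ)^[n₁] x) j|)
  have h0 := hstep _ _ (hi₁.le.trans (hj₁ i₁)) hj₁ ⟨j₁, rfl⟩
  rw [← Function.iterate_succ_apply' (pm Φ)] at h0
  have hT1 : M₀ ≤ |((pm Φ)^[n₁] x) j₁| := hi₁.le.trans (hj₁ i₁)
  set z : ℕ → Fin (m + 1) → ℝ := fun n => (pm Φ)^[n₁ + 1 + n] x with hz
  have hzs : ∀ n, z (n + 1) = pm Φ (z n) := by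
    intro n
    simp only [hz]
    rw [← Function.iterate_succ_apply' (pm Φ), ← add_assoc]
  have hmain : ∀ n, M₀ * 4 ^ n ≤ z n (Fin.last m) ∧ ∀ i, |z n i| ≤ z n (Fin.last m) := by
    intro n
    induction n with
    | zero =>
      refine ⟨?_, h0.2.1⟩
      rw [pow_zero, mul_one]
      have h1 : 4 * |((pm Φ)^[n₁] x) j₁| ≤ z 0 (Fin.last m) := h0.1
      linarith
    | succ n ih =>
      have hM0 : M₀ ≤ z n (Fin.last m) := by
        refine le_trans ?_ ih.1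
        exact le_mul_of_one_le_right (by linarith) (one_le_pow₀ (by norm_num))
      have h1 := hstep (z n) (z n (Fin.last m)) hM0 ih.2
        ⟨Fin.last m, abs_of_nonneg (by linarith)⟩
      rw [← hzs] at h1
      refine ⟨?_, h1.2.1⟩
      rw [pow_succ]
      linarith [h1.1, ih.1]
  have hpos : ∀ n, M₀ ≤ z n (Fin.last m) := fun n =>
    le_trans (le_mul_of_one_le_right (by linarith) (one_le_pow₀ (by norm_num))) (hmain n).1
  have habs : ∀ n, |z n (Fin.last m)| = z n (Fin.last m) := fun n =>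
    abs_of_nonneg (by linarith [hpos n])
  obtain ⟨v, A, hvl, hv1, hA, hlim, hinv, hF⟩ := orbit_limit hd he hlam hC hK hM z
    (fun n => by rw [habs]; exact (hmain n).1) (fun n i => by rw [habs]; exact (hmain n).2 i)
    (fun n i => by
      rw [habs, hzs]
      exact (hstep (z n) (z n (Fin.last m)) (hpos n) (hmain n).2 ⟨Fin.last m, habs n⟩).2.2
        (habs n) i)
  obtain ⟨-, -, hc⟩ := v_le hd he hlam hC hv1 hvl hF
  have hmp := mult_pos hd he hlam hC hv1 hvl hF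
  exact ⟨v, A, n₁ + 1, hvl, hA, fun n => by
    have : (pm Φ)^[n₁ + 1 + n] x (Fin.last m) = z n (Fin.last m) := rfl
    rw [this]
    linarith [hpos n], hlim, hinv, hF, by linarith, hmp.1, hmp.2⟩

/-- **Main theorem on real points.** Every orbit is bounded by `M₀`, or tends geometrically to a
point `(0 : v)` at infinity with real multipliers, at which the map is unramified on the hyperplane at
infinity. -/
theorem real_main (hd : 2 ≤ d) (he : Even d) (deg : ∀ i, (Φ i).totalDegree ≤ d) (hlam : 0 < lam)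
    (hC : Cone m d (kap m d) (eps m d) lam Φ) :
    ∃ M₀ : ℝ, ∀ x : Fin (m + 1) → ℝ, (∀ n i, |((pm Φ)^[n] x) i| ≤ M₀) ∨
      ∃ (v : Fin (m + 1) → ℝ) (A : ℝ) (n₀ : ℕ), v (Fin.last m) = 1 ∧ 0 ≤ A ∧
        (∀ n, ((pm Φ)^[n₀ + n] x) (Fin.last m) ≠ 0) ∧
        (∀ n i, |((pm Φ)^[n₀ + n] x) i / ((pm Φ)^[n₀ + n] x) (Fin.last m) - v i| ≤
          A * (1 / 2) ^ n) ∧
        (∀ n, |1 / ((pm Φ)^[n₀ + n] x) (Fin.last m)| ≤ (1 / 2) ^ n) ∧
        (∀ i, eval v (Fd d Φ i) = eval v (Fd d Φ (Fin.last m)) * v i) ∧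
        eval v (Fd d Φ (Fin.last m)) ≠ 0 ∧
        (∀ (h : Fin (m + 1) → ℂ) (β : ℂ), (∀ i, ∑ j, h j * (Jd d Φ v i j : ℂ) = β * v i) →
          ∃ γ : ℂ, ∀ i, h i = γ * v i) ∧
        ∀ (h : Fin (m + 1) → ℂ) (z β : ℂ), (¬ ∃ γ : ℂ, ∀ i, h i = γ * v i) →
          (∀ i, ∑ j, h j * (Jd d Φ v i j : ℂ) -
            (eval v (Fd d Φ (Fin.last m)) : ℝ) * z * h i = β * v i) → z.im = 0 ∧ 0 < z.re := by
  obtain ⟨β, hβ, hlow⟩ := lower deg
  exact ⟨_, real_main_of hd he hlam hC hβ hlow⟩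

end Pool.Agent.Helper26.PP
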