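import Pool.Agent.Helper26.PP.Est
import Pool.Agent.Helper86.MQ.Defs

/-!
# One step of the map for large points
-/

set_option autoImplicit false

namespace Pool.Agent.Helper26.PP

open Finset MvPolynomial
open Pool.Agent.Helper86.MQ (pm)

variable {m d : ℕ} {lam : ℝ} {Φ : Fin (m + 1) → MvPolynomial (Fin (m + 1)) ℝ}

theorem eval_mul_hom {P : MvPolynomial (Fin (m + 1)) ℝ} (hP : P.IsHomogeneous d) (c : ℝ)
    (w : Fin (m + 1) → ℝ) : eval (fun i => c * w i) P = c ^ d * eval w P := by
  rw [eval_eq', eval_eq', Finset.mul_sum]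
  refine Finset.sum_congr rfl fun s hs => ?_
  have h1 : ∑ i, s i = d := by
    have := hP (mem_support_iff.mp hs)
    rw [← this, Finsupp.weight_apply, Finsupp.sum_fintype _ _ (by simp)]
    simp
  have h2 : ∏ i, (c * w i) ^ s i = c ^ d * ∏ i, w i ^ s i := by
    simp only [mul_pow, Finset.prod_mul_distrib, Finset.prod_pow_eq_pow_sum, h1]
  rw [h2]
  ring

theorem Fd_hom (i : Fin (m + 1)) : (Fd d Φ i).IsHomogeneous d :=
  homogeneousComponent_isHomogeneous _ _

/-- the lower terms, for a given bound of the coefficients -/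
theorem lower_of (deg : ∀ i, (Φ i).totalDegree ≤ d) {b : ℝ} (hb0 : 0 ≤ b)
    (hcoef : ∀ i s, |coeff s (Φ i)| ≤ b) :
    ∀ (x : Fin (m + 1) → ℝ) (T : ℝ), 1 ≤ T → (∀ i, |x i| ≤ T) → ∀ i,
      |eval x (Φ i) - eval x (Fd d Φ i)| ≤ b * Mn m (d - 1) * T ^ (d - 1) := by
  classical
  intro x T hT hx i
  rw [← map_sub]
  refine eval_le (P := Φ i - Fd d Φ i) ?_ (fun s => ?_) hT hx
  · refine Finset.sup_le fun s hs => ?_
    have h1 : coeff s (Φ i - Fd d Φ i) ≠ 0 := mem_support_iff.1 hs
    rw [coeff_sub, Fd, coeff_homogeneousComponent] at h1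
    have h2 : s.degree ≠ d := by
      intro h
      rw [if_pos h, sub_self] at h1
      exact h1 rfl
    rw [if_neg h2, sub_zero] at h1
    have h3 : s.degree ≤ d := (le_totalDegree (mem_support_iff.2 h1)).trans (deg i)
    exact (show s.degree ≤ d - 1 by omega)
  · rw [coeff_sub, Fd, coeff_homogeneousComponent]
    split_ifs
    · rw [sub_self, abs_zero]
      exact hb0
    · rw [sub_zero]
      exact hcoef i s

/-- the lower terms -/
theorem lower (deg : ∀ i, (Φ i).totalDegree ≤ d) : ∃ β : ℝ, 0 ≤ β ∧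
    ∀ (x : Fin (m + 1) → ℝ) (T : ℝ), 1 ≤ T → (∀ i, |x i| ≤ T) → ∀ i,
      |eval x (Φ i) - eval x (Fd d Φ i)| ≤ β * T ^ (d - 1) := by
  classical
  set b : ℝ := ∑ i, ∑ s ∈ (Φ i).support, |coeff s (Φ i)| with hb
  have hb0 : 0 ≤ b := sum_nonneg fun i _ => sum_nonneg fun s _ => abs_nonneg _
  have hcoef : ∀ i s, |coeff s (Φ i)| ≤ b := by
    intro i s
    by_cases hs : s ∈ (Φ i).support
    · refine (Finset.single_le_sum (f := fun s => |coeff s (Φ i)|)
        (fun _ _ => abs_nonneg _) hs).trans ?_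
      exact Finset.single_le_sum (f := fun i => ∑ s ∈ (Φ i).support, |coeff s (Φ i)|)
        (fun _ _ => sum_nonneg fun s _ => abs_nonneg _) (mem_univ i)
    · rw [notMem_support_iff.1 hs, abs_zero]
      exact hb0
  exact ⟨b * Mn m (d - 1), mul_nonneg hb0 Mn_nonneg, lower_of deg hb0 hcoef⟩

/-- **One step** for large points. -/
theorem step_of (hd : 2 ≤ d) (he : Even d) (hlam : 0 < lam)
    (hC : Cone m d (kap m d) (eps m d) lam Φ) {β : ℝ} (hβ : 0 ≤ β)
    (hlow : ∀ (x : Fin (m + 1) → ℝ) (T : ℝ), 1 ≤ T → (∀ i, |x i| ≤ T) → ∀ i,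
      |eval x (Φ i) - eval x (Fd d Φ i)| ≤ β * T ^ (d - 1)) :
    ∀ (x : Fin (m + 1) → ℝ) (T : ℝ), 1 + 16 * β / lam + 16 / lam ≤ T → (∀ i, |x i| ≤ T) →
      (∃ i, |x i| = T) → 4 * T ≤ pm Φ x (Fin.last m) ∧
        (∀ i, |pm Φ x i| ≤ pm Φ x (Fin.last m)) ∧
        (|x (Fin.last m)| = T → ∀ i, |pm Φ x i / pm Φ x (Fin.last m) -
          eval (fun j => x j / x (Fin.last m)) (Fd d Φ i) /
            eval (fun j => x j / x (Fin.last m)) (Fd d Φ (Fin.last m))| ≤
              (8 * β / lam) / T) := by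
  have hd1 : 1 ≤ d := by omega
  obtain ⟨c1, c2, c3, c4, c5, c6, c7, c8, c9⟩ := consts (m := m) hd1
  intro x T hT hx hxT
  have hb1 : 0 ≤ 16 * β / lam := by positivity
  have hb2 : 0 ≤ 16 / lam := by positivity
  have hT1 : 1 ≤ T := by linarith
  have hT0 : 0 < T := by linarith
  have hTβ : 16 * β ≤ lam * T := by
    have : 16 * β / lam ≤ T := by linarith
    rwa [div_le_iff₀ hlam, mul_comm T] at this
  have hTl : 16 ≤ lam * T := by
    have : 16 / lam ≤ T := by linarith
    rwa [div_le_iff₀ hlam, mul_comm T] at this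
  have hpow : T ^ d = T ^ (d - 1) * T := by
    rw [← pow_succ]
    congr 1
    omega
  have hpp : 0 < T ^ (d - 1) := pow_pos hT0 _
  have hTT : T ≤ T ^ (d - 1) := by
    calc T = T ^ 1 := (pow_one T).symm
      _ ≤ T ^ (d - 1) := pow_le_pow_right₀ hT1 (by omega)
  have hlow' : ∀ i, |eval x (Φ i) - eval x (Fd d Φ i)| ≤ lam / 16 * T ^ d := by
    intro i
    refine (hlow x T hT1 hx i).trans ?_
    rw [hpow]
    nlinarith
  have hN := last_ge_half hd1 he hlam hC hx hxT
  have hN1 := abs_le.1 (hlow' (Fin.last m))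
  have hy : lam / 4 * T ^ d ≤ pm Φ x (Fin.last m) := by
    have hTd : 0 ≤ lam * T ^ d := by positivity
    rw [pm]
    linarith [hN1.1]
  have hi : ∀ i, |pm Φ x i| ≤ pm Φ x (Fin.last m) := by
    intro i
    by_cases hil : i = Fin.last m
    · rw [hil, abs_of_nonneg]
      exact le_trans (by positivity) hy
    · have h1 := ne_le hd1 hlam hC hil hx
      have h2 : lam * ((m + 1) * kap m d + er m d) * T ^ d ≤ lam * (1 / 32) * T ^ d := by
        refine mul_le_mul_of_nonneg_right (mul_le_mul_of_nonneg_left ?_ hlam.le)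
          (pow_nonneg hT0.le _)
        linarith
      have h3 : |pm Φ x i| ≤ |eval x (Fd d Φ i)| + |eval x (Φ i) - eval x (Fd d Φ i)| := by
        have h4 : pm Φ x i = eval x (Fd d Φ i) + (eval x (Φ i) - eval x (Fd d Φ i)) := by
          rw [pm]
          ring
        rw [h4]
        exact abs_add_le _ _
      have h5 := hlow' i
      have hTd : 0 ≤ lam * T ^ d := by positivity
      linarith
  refine ⟨?_, hi, fun hxl i => ?_⟩
  · refine le_trans ?_ hy
    rw [hpow]
    nlinarith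
  -- the direction
  set t := x (Fin.last m) with ht
  have ht0 : t ≠ 0 := by
    intro h
    rw [h, abs_zero] at hxl
    linarith
  set w : Fin (m + 1) → ℝ := fun j => x j / t with hw
  have hxw : x = fun j => t * w j := by
    funext j
    rw [hw]
    field_simp
  have hFx : ∀ i, eval x (Fd d Φ i) = t ^ d * eval w (Fd d Φ i) := by
    intro i
    conv_lhs => rw [hxw]
    exact eval_mul_hom (Fd_hom i) t w
  have hw1 : ∀ j, |w j| ≤ 1 := by
    intro j
    rw [hw]
    simp only [abs_div, hxl]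
    exact (div_le_one hT0).2 (hx j)
  have hwl : w (Fin.last m) = 1 := div_self ht0
  have hFN := last_ge_half hd1 he hlam hC hw1 ⟨Fin.last m, by rw [hwl, abs_one]⟩
  rw [one_pow, mul_one] at hFN
  have htd : t ^ d = T ^ d := by rw [← hxl, he.pow_abs]
  set r : Fin (m + 1) → ℝ := fun i => (eval x (Φ i) - eval x (Fd d Φ i)) / T ^ d with hr
  have hTd : 0 < T ^ d := pow_pos hT0 _
  have hpmr : ∀ i, pm Φ x i = T ^ d * (eval w (Fd d Φ i) + r i) := by
    intro i
    rw [hr]
    simp only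
    rw [hFx i, htd, mul_add, mul_div_cancel₀ _ hTd.ne', pm]
    ring
  have hr1 : ∀ i, |r i| ≤ β / T := by
    intro i
    rw [hr]
    simp only
    rw [abs_div, abs_of_pos hTd, div_le_div_iff₀ hTd hT0, hpow]
    have := hlow x T hT1 hx i
    nlinarith
  have hNr : lam / 4 ≤ eval w (Fd d Φ (Fin.last m)) + r (Fin.last m) := by
    have h1 : lam / 4 * T ^ d ≤ T ^ d * (eval w (Fd d Φ (Fin.last m)) + r (Fin.last m)) := by
      rw [← hpmr]
      exact hy
    rw [mul_comm] at h1
    exact le_of_mul_le_mul_left h1 hTd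
  have hFi : |eval w (Fd d Φ i)| ≤ eval w (Fd d Φ (Fin.last m)) := by
    by_cases hil : i = Fin.last m
    · rw [hil, abs_of_nonneg]
      linarith
    · have h1 := ne_le hd1 hlam hC hil hw1
      rw [one_pow, mul_one] at h1
      have h2 : lam * ((m + 1) * kap m d + er m d) ≤ lam * (1 / 32) :=
        mul_le_mul_of_nonneg_left (by linarith) hlam.le
      linarith
  rw [hpmr, hpmr, mul_div_mul_left _ _ hTd.ne']
  set a := eval w (Fd d Φ i)
  set b := eval w (Fd d Φ (Fin.last m))
  have hb0 : 0 < b := by linarith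
  have hbr : 0 < b + r (Fin.last m) := by linarith
  have h8 : (a + r i) / (b + r (Fin.last m)) - a / b =
      (r i - a / b * r (Fin.last m)) / (b + r (Fin.last m)) := by
    field_simp
    ring
  rw [h8, abs_div, abs_of_pos hbr, div_le_iff₀ hbr]
  have h9 : |r i - a / b * r (Fin.last m)| ≤ 2 * (β / T) := by
    refine (abs_sub _ _).trans ?_
    have h10 : |a / b * r (Fin.last m)| ≤ β / T := by
      rw [abs_mul, abs_div, abs_of_pos hb0]
      have h11 : |a| / b ≤ 1 := (div_le_one hb0).2 hFi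
      exact (mul_le_of_le_one_left (abs_nonneg _) h11).trans (hr1 _)
    linarith [hr1 i]
  refine h9.trans ?_
  have h10 : 8 * β / lam / T * (lam / 4) ≤ 8 * β / lam / T * (b + r (Fin.last m)) :=
    mul_le_mul_of_nonneg_left hNr (by positivity)
  refine le_trans (le_of_eq ?_) h10
  field_simp
  ring

end Pool.Agent.Helper26.PP
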